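import Pool.Agent.Lib.MP_1a91b9_nuX.DH.Tr

/-!
# DH: the finite extension and the data `TC` attached to a cocycle

Port of MP_1a91b9_nuT/DH/Fs.lean to the curves `y² = x³ + D`.
-/

set_option autoImplicit false

namespace Pool.Agent.Lib.MP_1a91b9_nuX.DH

variable [Pool.Agent.Lib.MP_1a91b9_nuT.CD]

open NumberField IsDedekindDomain WeierstrassCurve Pool.Agent.Lib.MP_1a91b9_nuT
open Pool.Agent.Lib.MP_1a91b9_nuX.DB Pool.Agent.Lib.MP_1a91b9_nuX.DX
open scoped Classical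

universe u

variable [HC]

private theorem fsa_emb (F : Type u) [Field F] [NumberField F] [Algebra K F] :
    Nonempty (AlgebraicClosure F →ₐ[K] ℂ) := by
  have h1 : Algebra.IsAlgebraic K F := Algebra.IsAlgebraic.tower_top (K := ℚ) K
  have h2 : Algebra.IsAlgebraic K (AlgebraicClosure F) := Algebra.IsAlgebraic.trans K F _
  exact ⟨IsAlgClosed.lift⟩

private theorem fsa_fix {F : Type u} [Field F] [NumberField F] [Algebra K F] (τ : S9.Gal F)
    (P : Pt (AlgebraicClosure F)) (hx : τ (xc P) = xc P) (hy : τ (yc P) = yc P) : ga τ P = P := by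
  rcases cases_pt P with rfl | ⟨x, y, h, rfl⟩
  · rw [map_zero]
  · obtain ⟨h3, e3⟩ := pm_mk ((τ : AlgebraicClosure F →ₐ[F] AlgebraicClosure F).restrictScalars K)
      x y h
    rw [ga, e3, mk_inj]
    exact ⟨hx, hy⟩

private theorem fsb_comm {A B B' D : Type*} [Field A] [Algebra K A] [Field B] [Algebra K B]
    [Field B'] [Algebra K B'] [Field D] [Algebra K D] [DecidableEq A] [DecidableEq B]
    [DecidableEq B'] [DecidableEq D] (a : B →ₐ[K] D) (b : A →ₐ[K] B) (c : B' →ₐ[K] D)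
    (d : A →ₐ[K] B') (e : ∀ x, a (b x) = c (d x)) (P : Pt A) : pm a (pm b P) = pm c (pm d P) := by
  rcases cases_pt P with rfl | ⟨x, y, h, rfl⟩
  · rw [map_zero, map_zero, map_zero, map_zero]
  · obtain ⟨h1, e1⟩ := pm_mk b x y h
    obtain ⟨h2, e2⟩ := pm_mk d x y h
    obtain ⟨h3, e3⟩ := pm_mk a _ _ h1
    obtain ⟨h4, e4⟩ := pm_mk c _ _ h2
    rw [e1, e2, e3, e4, mk_inj]
    exact ⟨e x, e y⟩

private theorem fsb_comp {A B D : Type*} [Field A] [Algebra K A] [Field B] [Algebra K B]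
    [Field D] [Algebra K D] [DecidableEq A] [DecidableEq B] [DecidableEq D] (a : B →ₐ[K] D)
    (b : A →ₐ[K] B) (c : A →ₐ[K] D) (e : ∀ x, a (b x) = c x) (P : Pt A) :
    pm a (pm b P) = pm c P := by
  rcases cases_pt P with rfl | ⟨x, y, h, rfl⟩
  · rw [map_zero, map_zero, map_zero]
  · obtain ⟨h1, e1⟩ := pm_mk b x y h
    obtain ⟨h2, e2⟩ := pm_mk c x y h
    obtain ⟨h3, e3⟩ := pm_mk a _ _ h1
    rw [e1, e2, e3, mk_inj]
    exact ⟨e x, e y⟩

section
variable {ϖ : 𝓞 K} {ℓ q : ℕ} (h : PD ϖ ℓ q) {F N N₂ : Type u} [Field F] [NumberField F]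
  [Algebra K F] [Field N] [NumberField N] [Algebra K N] [Field N₂] [NumberField N₂] [Algebra K N₂]
  [Algebra F N] [Algebra F N₂] [IsScalarTower K F N] [IsScalarTower K F N₂] [IsGalois F N]
  [IsGalois F N₂] {P₀ : Pt N} (hP₀ : Full F ϖ P₀) {P₂ : Pt N₂} (hP₂ : Full F (cj ϖ) P₂)
  (C : S9.Gal F → Pt (AlgebraicClosure F)) (hC0 : IsLocallyConstant C)
  (hC1 : ∀ σ τ : S9.Gal F, C (σ * τ) = C σ + ga σ (C τ))
  (hC2 : ∀ σ, sm (AlgebraicClosure F) (cj ϖ) (C σ) = 0)
include h hP₀ hP₂ hC0 hC1 hC2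

theorem exists_Lfield (f : N →ₐ[F] AlgebraicClosure F) (f₂ : N₂ →ₐ[F] AlgebraicClosure F)
    {ζ₀ : AlgebraicClosure F} (hζ : IsPrimitiveRoot ζ₀ ℓ) :
    ∃ L : IntermediateField F (AlgebraicClosure F), FiniteDimensional F L ∧ IsGalois F L ∧
      ∀ τ : S9.Gal F, (∀ x ∈ L, τ x = x) ↔
        (ga τ (pm (f.restrictScalars K) P₀) = pm (f.restrictScalars K) P₀ ∧
        ga τ (pm (f₂.restrictScalars K) P₂) = pm (f₂.restrictScalars K) P₂ ∧ τ ζ₀ = ζ₀ ∧
        C τ = 0) := by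
  have hch : CharZero F := inferInstance
  have hgal : IsGalois F (AlgebraicClosure F) := inferInstance
  obtain ⟨e⟩ := fsa_emb F
  have h2 := (pd_cj h).prime
  generalize hP0 : pm (f.restrictScalars K) P₀ = P0
  generalize hP2 : pm (f₂.restrictScalars K) P₂ = P2
  have o0 : Ord ϖ P0 := hP0 ▸ (Ord.map (f.restrictScalars K)).2 hP₀.ord
  have o2 : Ord (cj ϖ) P2 := hP2 ▸ (Ord.map (f₂.restrictScalars K)).2 hP₂.ord
  have q0 : ∀ ρ : S9.Gal F, ∃ c : 𝓞 K, ga ρ P0 = sm (AlgebraicClosure F) c P0 := by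
    intro ρ
    refine ord_cases e h.prime.ne_zero o0 ?_
    rw [← ga_sm, (o0 ϖ).2 dvd_rfl, map_zero]
  have q2 : ∀ ρ : S9.Gal F, ∃ c : 𝓞 K, ga ρ P2 = sm (AlgebraicClosure F) c P2 := by
    intro ρ
    refine ord_cases e h2.ne_zero o2 ?_
    rw [← ga_sm, (o2 (cj ϖ)).2 dvd_rfl, map_zero]
  have q3 : ∀ ρ : S9.Gal F, ∃ c : 𝓞 K, C ρ = sm (AlgebraicClosure F) c P2 := by
    intro ρ
    exact ord_cases e h2.ne_zero o2 (hC2 ρ)
  have q4 : ∀ ρ : S9.Gal F, ∃ j : ℕ, ρ ζ₀ = ζ₀ ^ j := by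
    intro ρ
    have h1 : (ρ ζ₀) ^ ℓ = 1 := by
      rw [← map_pow, hζ.pow_eq_one, map_one]
    have : NeZero ℓ := ⟨h.hl.ne_zero⟩
    obtain ⟨i, _, hi⟩ := hζ.eq_pow_of_pow_eq_one h1
    exact ⟨i, hi.symm⟩
  have hC1' : C 1 = 0 := by
    have h3 := hC1 1 1
    rw [mul_one, ga_one] at h3
    exact left_eq_add.mp h3
  let U : Subgroup (S9.Gal F) :=
    { carrier := {τ | ga τ P0 = P0 ∧ ga τ P2 = P2 ∧ τ ζ₀ = ζ₀ ∧ C τ = 0}
      mul_mem' := by
        rintro a b ⟨a1, a2, a3, a4⟩ ⟨b1, b2, b3, b4⟩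
        refine ⟨?_, ?_, ?_, ?_⟩
        · rw [ga_mul, b1, a1]
        · rw [ga_mul, b2, a2]
        · rw [AlgEquiv.mul_apply, b3, a3]
        · rw [hC1, a4, b4, map_zero, add_zero]
      one_mem' := ⟨ga_one _, ga_one _, rfl, hC1'⟩
      inv_mem' := by
        rintro a ⟨a1, a2, a3, a4⟩
        refine ⟨?_, ?_, ?_, ?_⟩
        · have h3 : ga (a⁻¹ * a) P0 = P0 := by rw [inv_mul_cancel, ga_one]
          rw [ga_mul, a1] at h3
          exact h3
        · have h3 : ga (a⁻¹ * a) P2 = P2 := by rw [inv_mul_cancel, ga_one]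
          rw [ga_mul, a2] at h3
          exact h3
        · have h3 : (a⁻¹ * a) ζ₀ = ζ₀ := by rw [inv_mul_cancel, AlgEquiv.one_apply]
          rw [AlgEquiv.mul_apply, a3] at h3
          exact h3
        · have h3 := hC1 a⁻¹ a
          rw [inv_mul_cancel, hC1', a4, map_zero, add_zero] at h3
          exact h3.symm }
  have hU : ∀ τ : S9.Gal F, τ ∈ U ↔ (ga τ P0 = P0 ∧ ga τ P2 = P2 ∧ τ ζ₀ = ζ₀ ∧ C τ = 0) :=
    fun _ => Iff.rfl
  have hUn : U.Normal := by
    refine ⟨fun n hn g => ?_⟩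
    obtain ⟨n1, n2, n3, n4⟩ := (hU n).1 hn
    obtain ⟨c0, e0⟩ := q0 g⁻¹
    obtain ⟨c2, e2⟩ := q2 g⁻¹
    obtain ⟨c3, e3⟩ := q3 g⁻¹
    obtain ⟨j, e4⟩ := q4 g⁻¹
    rw [hU]
    refine ⟨?_, ?_, ?_, ?_⟩
    · have h3 : ga (g * g⁻¹) P0 = P0 := by rw [mul_inv_cancel, ga_one]
      rw [ga_mul] at h3
      rw [ga_mul, ga_mul, e0, ga_sm n, n1, ← e0]
      exact h3
    · have h3 : ga (g * g⁻¹) P2 = P2 := by rw [mul_inv_cancel, ga_one]
      rw [ga_mul] at h3
      rw [ga_mul, ga_mul, e2, ga_sm n, n2, ← e2]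
      exact h3
    · have h3 : (g * g⁻¹) ζ₀ = ζ₀ := by rw [mul_inv_cancel, AlgEquiv.one_apply]
      rw [AlgEquiv.mul_apply] at h3
      rw [AlgEquiv.mul_apply, AlgEquiv.mul_apply, e4, map_pow n, n3, ← e4]
      exact h3
    · have h3 := hC1 g g⁻¹
      rw [mul_inv_cancel, hC1'] at h3
      rw [hC1, hC1, n4, map_zero, add_zero, ga_mul, e3, ga_sm n, n2, ← e3]
      exact h3.symm
  have hUo : IsOpen (U : Set (S9.Gal F)) := by
    refine Subgroup.isOpen_of_mem_nhds U (g := 1) ?_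
    have hm : C ⁻¹' {0} ∈ nhds (1 : S9.Gal F) := (hC0 {0}).mem_nhds hC1'
    rw [krullTopology_mem_nhds_one_iff] at hm ⊢
    obtain ⟨M, hM, hs⟩ := hm
    let S : Set (AlgebraicClosure F) := {xc P0, yc P0, xc P2, yc P2, ζ₀}
    let M' : IntermediateField F (AlgebraicClosure F) := IntermediateField.adjoin F S
    have hM' : FiniteDimensional F M' := by
      have hfin : Set.Finite S := Set.toFinite _
      have : Finite S := hfin
      exact IntermediateField.finiteDimensional_adjoin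
        fun z _ => (Algebra.IsAlgebraic.isAlgebraic z).isIntegral
    refine ⟨M ⊔ M', IntermediateField.finiteDimensional_sup M M', ?_⟩
    intro τ hτ
    rw [SetLike.mem_coe, IntermediateField.mem_fixingSubgroup_iff] at hτ
    have hτ1 : ∀ x ∈ M, τ x = x := fun x hx => hτ x ((le_sup_left : M ≤ M ⊔ M') hx)
    have hτ2 : ∀ x ∈ S, τ x = x := fun x hx =>
      hτ x ((le_sup_right : M' ≤ M ⊔ M') (IntermediateField.subset_adjoin F S hx))
    refine ⟨?_, ?_, ?_, ?_⟩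
    · exact fsa_fix τ P0 (hτ2 _ (by simp [S])) (hτ2 _ (by simp [S]))
    · exact fsa_fix τ P2 (hτ2 _ (by simp [S])) (hτ2 _ (by simp [S]))
    · exact hτ2 _ (by simp [S])
    · have h5 : τ ∈ (M.fixingSubgroup : Set (S9.Gal F)) := by
        rw [SetLike.mem_coe, IntermediateField.mem_fixingSubgroup_iff]
        exact hτ1
      exact hs h5
  have hfix : (IntermediateField.fixedField U).fixingSubgroup = U :=
    InfiniteGalois.fixingSubgroup_fixedField ⟨U, Subgroup.isClosed_of_isOpen U hUo⟩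
  refine ⟨IntermediateField.fixedField U, ?_, ?_, ?_⟩
  · rw [← InfiniteGalois.isOpen_iff_finite, hfix]
    exact hUo
  · rw [← InfiniteGalois.normal_iff_isGalois, hfix]
    exact hUn
  · intro τ
    rw [← hU, ← IntermediateField.mem_fixingSubgroup_iff, hfix]

omit hC0 in
private theorem fsb_main (L : IntermediateField F (AlgebraicClosure F)) [NumberField L]
    [IsGalois F L] [Algebra N L] [Algebra N₂ L] [IsScalarTower K N L] [IsScalarTower K N₂ L]
    [IsScalarTower F N L] [IsScalarTower F N₂ L] (f : N →ₐ[F] AlgebraicClosure F)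
    (f₂ : N₂ →ₐ[F] AlgebraicClosure F) (hf : ∀ z, ((algebraMap N L z : L) : AlgebraicClosure F) = f z)
    (hf₂ : ∀ z, ((algebraMap N₂ L z : L) : AlgebraicClosure F) = f₂ z) (ζ : L)
    (hζ : IsPrimitiveRoot (ζ : AlgebraicClosure F) ℓ)
    (hL : ∀ τ : S9.Gal F, (∀ x ∈ L, τ x = x) ↔
        (ga τ (pm (f.restrictScalars K) P₀) = pm (f.restrictScalars K) P₀ ∧
        ga τ (pm (f₂.restrictScalars K) P₂) = pm (f₂.restrictScalars K) P₂ ∧
        τ (ζ : AlgebraicClosure F) = ζ ∧ C τ = 0)) :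
    ∃ κ : Gal(L/F) → Pt L, TC ϖ ℓ q P₀ P₂ ζ κ ∧
      ∀ τ : S9.Gal F, pm (L.val.restrictScalars K) (κ (τ.restrictNormal L)) = C τ := by
  obtain ⟨e⟩ := fsa_emb F
  have h2 := (pd_cj h).prime
  have hup0 : pm (L.val.restrictScalars K) (up L P₀) = pm (f.restrictScalars K) P₀ :=
    fsb_comp _ _ _ hf P₀
  have hup2 : pm (L.val.restrictScalars K) (up L P₂) = pm (f₂.restrictScalars K) P₂ :=
    fsb_comp _ _ _ hf₂ P₂
  have hga : ∀ (τ : S9.Gal F) (Q : Pt L), pm (L.val.restrictScalars K) (ga (τ.restrictNormal L) Q) =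
      ga τ (pm (L.val.restrictScalars K) Q) := by
    intro τ Q
    refine fsb_comm _ _ _ _ ?_ Q
    intro x
    exact AlgEquiv.restrictNormal_commutes τ L x
  have hinj := pm_inj (L.val.restrictScalars K)
  have ht : ∀ g : Gal(L/F), ∃ τ : S9.Gal F, τ.restrictNormal L = g := by
    intro g
    obtain ⟨τ, hτ⟩ := AlgEquiv.restrictNormalHom_surjective (F := F) (K₁ := L)
      (AlgebraicClosure F) g
    exact ⟨τ, hτ⟩
  choose t ht using ht
  have o2 : Ord (cj ϖ) (pm (f₂.restrictScalars K) P₂) :=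
    (Ord.map (f₂.restrictScalars K)).2 hP₂.ord
  have hk : ∀ g : Gal(L/F), ∃ Q : Pt L, pm (L.val.restrictScalars K) Q = C (t g) := by
    intro g
    obtain ⟨c, hc⟩ := ord_cases e h2.ne_zero o2 (hC2 (t g))
    refine ⟨sm L c (up L P₂), ?_⟩
    rw [pm_sm, hup2, hc]
  choose κ hκ using hk
  have hκ2 : ∀ τ : S9.Gal F, pm (L.val.restrictScalars K) (κ (τ.restrictNormal L)) = C τ := by
    intro τ
    have h3 : ∀ x ∈ L, ((t (τ.restrictNormal L))⁻¹ * τ) x = x := by
      intro x hx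
      have h4 : τ x = (t (τ.restrictNormal L)) x := by
        have h5 := AlgEquiv.restrictNormal_commutes τ L ⟨x, hx⟩
        have h6 := AlgEquiv.restrictNormal_commutes (t (τ.restrictNormal L)) L ⟨x, hx⟩
        rw [ht] at h6
        exact h5.symm.trans h6
      rw [AlgEquiv.mul_apply, h4, ← AlgEquiv.mul_apply, inv_mul_cancel, AlgEquiv.one_apply]
    have h7 := ((hL _).1 h3).2.2.2
    have h8 := hC1 (t (τ.restrictNormal L)) ((t (τ.restrictNormal L))⁻¹ * τ)
    rw [mul_inv_cancel_left, h7, map_zero, add_zero] at h8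
    rw [hκ, h8]
  have hmul : ∀ σ τ : S9.Gal F, (σ * τ).restrictNormal L =
      σ.restrictNormal L * τ.restrictNormal L := by
    intro σ τ
    exact map_mul (AlgEquiv.restrictNormalHom (F := F) (K₁ := AlgebraicClosure F) L) σ τ
  refine ⟨κ, ⟨h, hP₀, hP₂, ?_, ?_, ?_, ?_⟩, hκ2⟩
  · exact hζ.of_map_of_injective (f := L.val) L.val.injective
  · intro g g'
    apply hinj
    have h3 := hκ2 (t g * t g')
    rw [hmul, ht, ht] at h3
    have h4 := hga (t g) (κ g')
    rw [ht] at h4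
    rw [h3, map_add, h4, hκ, hκ]
    exact hC1 _ _
  · intro g
    apply hinj
    rw [pm_sm, hκ, map_zero]
    exact hC2 _
  · intro σ h3 h4 h5 h6
    have h7 : ∀ x ∈ L, (t σ) x = x := by
      rw [hL]
      refine ⟨?_, ?_, ?_, ?_⟩
      · have h8 := hga (t σ) (up L P₀)
        rw [ht, h3, hup0] at h8
        exact h8.symm
      · have h8 := hga (t σ) (up L P₂)
        rw [ht, h4, hup2] at h8
        exact h8.symm
      · have h8 := AlgEquiv.restrictNormal_commutes (t σ) L ζ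
        rw [ht, h6] at h8
        exact h8.symm
      · have h8 := hκ σ
        rw [h5, map_zero] at h8
        exact h8.symm
    have h8 := (AlgEquiv.restrictNormal_eq_one_iff L (t σ)).2 h7
    rw [ht] at h8
    exact h8

theorem exists_TC : ∃ (L : IntermediateField F (AlgebraicClosure F)) (_ : NumberField L)
    (_ : IsGalois F L) (_ : Algebra N L) (_ : Algebra N₂ L) (_ : IsScalarTower K N L)
    (_ : IsScalarTower K N₂ L) (_ : IsScalarTower F N L) (_ : IsScalarTower F N₂ L) (ζ : L)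
    (κ : Gal(L/F) → Pt L), TC ϖ ℓ q P₀ P₂ ζ κ ∧
      (∀ τ : S9.Gal F, (∀ x ∈ L, τ x = x) → C τ = 0) ∧
      ∀ τ : S9.Gal F, pm (L.val.restrictScalars K) (κ (τ.restrictNormal L)) = C τ := by
  have hch : CharZero F := inferInstance
  have hgal : IsGalois F (AlgebraicClosure F) := inferInstance
  have hN1 : Module.Finite F N := Module.Finite.of_restrictScalars_finite ℚ F N
  have hN2 : Module.Finite F N₂ := Module.Finite.of_restrictScalars_finite ℚ F N₂
  let f : N →ₐ[F] AlgebraicClosure F := IsAlgClosed.lift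
  let f₂ : N₂ →ₐ[F] AlgebraicClosure F := IsAlgClosed.lift
  have hℓ : 0 < ℓ := h.hl.pos
  have : NeZero (ℓ : AlgebraicClosure F) := ⟨by exact_mod_cast hℓ.ne'⟩
  obtain ⟨ζ₀, hζ₀⟩ : ∃ z : AlgebraicClosure F,
      (Polynomial.cyclotomic ℓ (AlgebraicClosure F)).IsRoot z := by
    apply IsAlgClosed.exists_root
    rw [Polynomial.degree_cyclotomic]
    exact_mod_cast (Nat.totient_pos.2 hℓ).ne'
  rw [Polynomial.isRoot_cyclotomic_iff] at hζ₀
  obtain ⟨L, hfd, hg, hL⟩ := exists_Lfield h hP₀ hP₂ C hC0 hC1 hC2 f f₂ hζ₀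
  have hnf : NumberField L := NumberField.of_module_finite F L
  have hmem : ∀ z : AlgebraicClosure F, (∀ τ : S9.Gal F, (∀ x ∈ L, τ x = x) → τ z = z) →
      z ∈ L := by
    intro z hz
    rw [← InfiniteGalois.fixedField_fixingSubgroup L, IntermediateField.mem_fixedField_iff]
    intro τ hτ
    exact hz τ ((IntermediateField.mem_fixingSubgroup_iff L τ).1 hτ)
  have hmf : ∀ z, f z ∈ L := by
    intro z
    refine hmem _ fun τ hτ => ?_
    obtain ⟨ρ, hρ⟩ := S9.exists_comp f ((τ : AlgebraicClosure F →ₐ[F] AlgebraicClosure F).comp f)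
    have h3 : ga ρ P₀ = P₀ := by
      apply pm_inj (f.restrictScalars K)
      rw [← ((hL τ).1 hτ).1]
      exact (fsb_comm _ _ _ _ (fun x => hρ x) P₀).symm
    have h4 := hP₀.gen ρ h3
    have h5 := hρ z
    rw [h4, AlgEquiv.one_apply] at h5
    exact h5
  have hmf₂ : ∀ z, f₂ z ∈ L := by
    intro z
    refine hmem _ fun τ hτ => ?_
    obtain ⟨ρ, hρ⟩ := S9.exists_comp f₂ ((τ : AlgebraicClosure F →ₐ[F] AlgebraicClosure F).comp f₂)
    have h3 : ga ρ P₂ = P₂ := by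
      apply pm_inj (f₂.restrictScalars K)
      rw [← ((hL τ).1 hτ).2.1]
      exact (fsb_comm _ _ _ _ (fun x => hρ x) P₂).symm
    have h4 := hP₂.gen ρ h3
    have h5 := hρ z
    rw [h4, AlgEquiv.one_apply] at h5
    exact h5
  have hmζ : ζ₀ ∈ L := hmem _ fun τ hτ => ((hL τ).1 hτ).2.2.1
  let a2 : Algebra N L := (f.codRestrict L.toSubalgebra hmf).toRingHom.toAlgebra
  let a3 : Algebra N₂ L := (f₂.codRestrict L.toSubalgebra hmf₂).toRingHom.toAlgebra
  have e2 : ∀ z, ((algebraMap N L z : L) : AlgebraicClosure F) = f z := fun _ => rfl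
  have e3 : ∀ z, ((algebraMap N₂ L z : L) : AlgebraicClosure F) = f₂ z := fun _ => rfl
  have t2 : IsScalarTower F N L := IsScalarTower.of_algebraMap_eq fun x => by
    apply Subtype.ext
    rw [e2, AlgHom.commutes]
    rfl
  have t3 : IsScalarTower F N₂ L := IsScalarTower.of_algebraMap_eq fun x => by
    apply Subtype.ext
    rw [e3, AlgHom.commutes]
    rfl
  have t5 : IsScalarTower K N L := IsScalarTower.of_algebraMap_eq fun x => by
    rw [IsScalarTower.algebraMap_apply K F N, ← IsScalarTower.algebraMap_apply F N L,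
      ← IsScalarTower.algebraMap_apply K F L]
  have t6 : IsScalarTower K N₂ L := IsScalarTower.of_algebraMap_eq fun x => by
    rw [IsScalarTower.algebraMap_apply K F N₂, ← IsScalarTower.algebraMap_apply F N₂ L,
      ← IsScalarTower.algebraMap_apply K F L]
  obtain ⟨κ, h6, h7⟩ := fsb_main h hP₀ hP₂ C hC1 hC2 L f f₂ e2 e3 ⟨ζ₀, hmζ⟩ hζ₀ hL
  exact ⟨L, hnf, hg, a2, a3, t5, t6, t2, t3, ⟨ζ₀, hmζ⟩, κ, h6,
    fun τ hτ => ((hL τ).1 hτ).2.2.2, h7⟩

end

end Pool.Agent.Lib.MP_1a91b9_nuX.DH
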