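import Pool.Agent.Lib.MP_1a91b9_nuX.DH.Chi

/-!
# DH: the Kummer class of a cocycle (adapted from DX/Kum)

Port of MP_1a91b9_nuT/DH/Kum.lean to the curves `y² = x³ + D`.
-/

set_option autoImplicit false

namespace Pool.Agent.Lib.MP_1a91b9_nuX.DH

variable [Pool.Agent.Lib.MP_1a91b9_nuT.CD]

open NumberField IsDedekindDomain WeierstrassCurve Pool.Agent.Lib.MP_1a91b9_nuT
open Pool.Agent.Lib.MP_1a91b9_nuX.DB Pool.Agent.Lib.MP_1a91b9_nuX.DX

universe u

variable [HC]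

section
variable {F N N₂ L : Type u} [Field F] [NumberField F] [Algebra K F] [Field N] [NumberField N]
  [Algebra K N] [Field N₂] [NumberField N₂] [Algebra K N₂] [Field L] [NumberField L] [Algebra K L]
  [Algebra F N] [Algebra F N₂] [Algebra F L] [Algebra N L] [Algebra N₂ L]
  [IsScalarTower K F N] [IsScalarTower K F N₂] [IsScalarTower K F L] [IsScalarTower K N L]
  [IsScalarTower K N₂ L] [IsScalarTower F N L] [IsScalarTower F N₂ L]
  [DecidableEq F] [DecidableEq N] [DecidableEq N₂] [DecidableEq L]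
  [IsGalois F N] [IsGalois F N₂] [IsGalois F L]

/-- the class `y` of `N` attached to the additive map `φ`, with its `ℓ`-th root `α` in `L` -/
structure KC (F : Type u) {N N₂ L : Type u} [Field F] [NumberField F] [Algebra K F] [Field N]
    [NumberField N] [Algebra K N] [Field N₂] [NumberField N₂] [Algebra K N₂] [Field L]
    [NumberField L] [Algebra K L] [Algebra F N] [Algebra N L] [Algebra N₂ L] [IsScalarTower K F N]
    [IsScalarTower K N L] [IsScalarTower K N₂ L] [DecidableEq N] [DecidableEq N₂] [DecidableEq L]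
    [Algebra F L] [IsScalarTower F N L]
    (ϖ : 𝓞 K) (ℓ : ℕ) (P₀ : Pt N) (P₂ : Pt N₂) (ζ : L) (κ : Gal(L/F) → Pt L) (φ : 𝓞 K →+ ZMod ℓ) (y : Nˣ)
    (α : L) : Prop where
  pow : α ^ ℓ = algebraMap N L (y : N)
  ker : ∀ x : 𝓞 K, cj ϖ ∣ x → φ x = 0
  act : ∀ (σ : Gal(L/N)) (x : 𝓞 K), κ (toF F σ) = sm L x (up L P₂) → σ α = ζ ^ (φ x).val * α
  iso : Iso F ℓ P₀ y

variable {ϖ : 𝓞 K} {ℓ q : ℕ} {P₀ : Pt N} {P₂ : Pt N₂} {ζ : L} {κ : Gal(L/F) → Pt L}
  (D : TC ϖ ℓ q P₀ P₂ ζ κ)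
include D

theorem TC.kap_mul {g h : Gal(L/F)} {x y c : 𝓞 K} (hx : κ g = sm L x (up L P₂))
    (hy : κ h = sm L y (up L P₂)) (hc : ga g (up L P₂) = sm L c (up L P₂)) :
    κ (g * h) = sm L (x + c * y) (up L P₂) := by
  have h3 : sm L (x + c * y) (up L P₂) = sm L x (up L P₂) + sm L y (sm L c (up L P₂)) := by
    rw [map_add, mul_comm c y, map_mul]
    rfl
  rw [D.coc, hx, hy, ga_sm, hc, h3]

theorem TC.kap_conj {g h : Gal(L/F)} {x y z c c' : 𝓞 K} (hx : κ g = sm L x (up L P₂))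
    (hy : κ h = sm L y (up L P₂)) (hz : κ (g⁻¹ * h * g) = sm L z (up L P₂))
    (hc : ga g (up L P₂) = sm L c (up L P₂)) (hc' : ga h (up L P₂) = sm L c' (up L P₂)) :
    cj ϖ ∣ c * z - (y + (c' - 1) * x) := by
  have h1 := D.kap_mul hx hz hc
  have h2 := D.kap_mul hy hx hc'
  have h3 : g * (g⁻¹ * h * g) = h * g := by group
  rw [h3, h2] at h1
  have h4 := D.kap_unique.1 h1.symm
  have h5 : c * z - (y + (c' - 1) * x) = x + c * z - (y + c' * x) := by ring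
  rw [h5]
  exact h4

/-- over `N` the action on `P₂` and on the roots of unity agree -/
theorem TC.chi_N (σ : Gal(L/N)) {c : 𝓞 K} {x : ℕ} (hc : ga σ (up L P₂) = sm L c (up L P₂))
    (hx : σ ζ = ζ ^ x) : cj ϖ ∣ (x : 𝓞 K) - c := by
  have h0 : ga (toF F σ) (up L P₀) = sm L (1 : 𝓞 K) (up L P₀) := by
    rw [ga_toF, ga_up_self, map_one, AddMonoid.End.one_apply]
  have h1 := D.chi (toF F σ) (d := 1) (c := c) (x := x) h0 (by rw [ga_toF]; exact hc) hx
  rw [map_one, mul_one] at h1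
  exact h1

theorem TC.zeta_pow {a b : ℕ} (h : (a : ZMod ℓ) = (b : ZMod ℓ)) : ζ ^ a = ζ ^ b := by
  have h1 : a ≡ b [MOD ℓ] := (ZMod.natCast_eq_natCast_iff _ _ _).1 h
  exact pow_eq_pow_of_modEq h1 D.zeta.pow_eq_one

theorem TC.hilb (ψ : 𝓞 K →+ ZMod ℓ) (hψ : ∀ x : 𝓞 K, cj ϖ ∣ x → ψ x = 0) :
    ∃ α : L, α ≠ 0 ∧ ∀ (σ : Gal(L/N)) (x : 𝓞 K), κ (toF F σ) = sm L x (up L P₂) →
      σ α = ζ ^ (ψ x).val * α := by
  classical
  have hℓ : ℓ.Prime := D.pd.hl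
  have : NeZero ℓ := ⟨hℓ.ne_zero⟩
  have : FiniteDimensional N L := Module.Finite.of_restrictScalars_finite ℚ N L
  have hψ' : ∀ x y : 𝓞 K, cj ϖ ∣ x - y → ψ x = ψ y := by
    intro x y hxy
    have := hψ _ hxy
    rwa [map_sub, sub_eq_zero] at this
  choose X hX using fun σ : Gal(L/N) => D.exists_kap (toF F σ)
  choose c _ hc using fun σ : Gal(L/N) => D.exists_c (toF F σ)
  choose n hn using fun σ : Gal(L/N) => D.exists_x (toF F σ)
  have hζ0 : ζ ≠ 0 := D.zeta.ne_zero hℓ.ne_zero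
  have hval : ∀ z : ZMod ℓ, ((z.val : ℕ) : ZMod ℓ) = z := fun z => ZMod.natCast_zmod_val z
  let ζu : Lˣ := Units.mk0 ζ hζ0
  let f : Gal(L/N) → Lˣ := fun σ => ζu ^ (ψ (X σ)).val
  have hf : ∀ σ, ((f σ : Lˣ) : L) = ζ ^ (ψ (X σ)).val := by
    intro σ
    simp only [f, ζu, Units.val_pow_eq_pow_val, Units.val_mk0]
  have key : ∀ σ τ : Gal(L/N), ψ (X (σ * τ)) = (n σ : ZMod ℓ) * ψ (X τ) + ψ (X σ) := by
    intro σ τ
    have h1 := D.kap_mul (hX σ) (hX τ) (hc σ)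
    have h2 : κ (toF F (σ * τ)) = sm L (X σ + c σ * X τ) (up L P₂) := h1
    rw [hX (σ * τ)] at h2
    have h3 := hψ' _ _ (D.kap_unique.1 h2)
    have h4 : cj ϖ ∣ (n σ : 𝓞 K) - c σ :=
      D.chi_N σ (by rw [← ga_toF (F := F)]; exact hc σ) (hn σ)
    have h5 : ψ (c σ * X τ) = ψ ((n σ : 𝓞 K) * X τ) := by
      symm
      apply hψ'
      rw [← sub_mul]
      exact Dvd.dvd.mul_right h4 _
    rw [h3, map_add, h5, ← nsmul_eq_mul, map_nsmul, nsmul_eq_mul, add_comm]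
  have hcoc : groupCohomology.IsMulCocycle₁ f := by
    intro σ τ
    apply Units.ext
    rw [Units.val_mul, hf, hf]
    have h1 : ((σ • f τ : Lˣ) : L) = σ (ζ ^ (ψ (X τ)).val) := by
      rw [← hf τ]; rfl
    have h2 : σ ζ = ζ ^ n σ := hn σ
    rw [h1, map_pow, h2, ← pow_mul, ← pow_add]
    apply D.zeta_pow
    rw [hval, key, Nat.cast_add, Nat.cast_mul, hval, hval]
  obtain ⟨α, hα⟩ := groupCohomology.isMulCoboundary₁_of_isMulCocycle₁_of_aut_to_units f hcoc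
  refine ⟨(α : L), α.ne_zero, ?_⟩
  intro σ x hx
  have h1 : ψ x = ψ (X σ) := by
    apply hψ'
    rw [← D.kap_unique, ← hx, ← hX σ]
  have h2 : σ • α = f σ * α := by
    rw [← hα σ, div_mul_cancel]
  have h3 := congrArg (fun u : Lˣ => (u : L)) h2
  simp only [Units.val_mul] at h3
  rw [hf] at h3
  rw [h1]
  exact h3

theorem TC.galois_step {φ : 𝓞 K →+ ZMod ℓ} (hφ : ∀ x : 𝓞 K, cj ϖ ∣ x → φ x = 0)
    {g : Gal(L/F)} {d : 𝓞 K} (hd : ga g (up L P₀) = sm L d (up L P₀)) {α α' : L} (hα : α ≠ 0)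
    (hα' : α' ≠ 0)
    (h1 : ∀ (σ : Gal(L/N)) (x : 𝓞 K), κ (toF F σ) = sm L x (up L P₂) → σ α = ζ ^ (φ x).val * α)
    (h2 : ∀ (σ : Gal(L/N)) (x : 𝓞 K), κ (toF F σ) = sm L x (up L P₂) →
      σ α' = ζ ^ (φ (cj d * x)).val * α') :
    ∃ (n : Nˣ) (m : ℕ), g α = algebraMap N L (n : N) * ζ ^ m * α' := by
  haveI : IsGalois N L := IsGalois.tower_top_of_isGalois F N L
  haveI : NeZero ℓ := ⟨D.pd.hl.ne_zero⟩
  have hval : ∀ z : ZMod ℓ, ((z.val : ℕ) : ZMod ℓ) = z := fun z => ZMod.natCast_zmod_val z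
  have hφ' : ∀ x y : 𝓞 K, cj ϖ ∣ x - y → φ x = φ y := by
    intro x y hxy
    have := hφ _ hxy
    rwa [map_sub, sub_eq_zero] at this
  have hζ0 : ζ ≠ 0 := D.zeta.ne_zero D.pd.hl.ne_zero
  obtain ⟨xg, hxg⟩ := D.exists_kap g
  obtain ⟨c, -, hc⟩ := D.exists_c g
  obtain ⟨χ, hχ⟩ := D.exists_x g
  have hchi := D.chi g hd hc hχ
  obtain ⟨m, hm⟩ : ∃ m : ℕ, m = (φ (cj d * xg)).val := ⟨_, rfl⟩
  have hgα : g α ≠ 0 := by
    intro h
    exact hα ((map_eq_zero g).1 h)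
  have hne : α' * ζ ^ m ≠ 0 := mul_ne_zero hα' (pow_ne_zero _ hζ0)
  have hfix : ∀ h : Gal(L/N), h (g α / (α' * ζ ^ m)) = g α / (α' * ζ ^ m) := by
    intro h
    obtain ⟨xh, hxh⟩ := D.exists_kap (toF F h)
    obtain ⟨c', -, hc'⟩ := D.exists_c (toF F h)
    obtain ⟨χh, hχh⟩ := D.exists_x (toF F h)
    obtain ⟨xk, hxk⟩ := D.exists_kap (g⁻¹ * toF F h * g)
    have hrs : rs N (g⁻¹ * toF F h * g) = 1 := by
      rw [rs_mul, rs_mul, rs_toF, mul_one, ← rs_mul, inv_mul_cancel]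
      apply AlgEquiv.ext
      intro x
      apply (algebraMap N L).injective
      rw [rs_apply]
      rfl
    obtain ⟨σ', hσ'⟩ := exists_of_rs_one _ hrs
    have hk := h1 σ' xk (by rw [hσ']; exact hxk)
    have hconj := D.kap_conj hxg hxh hxk hc hc'
    have hchih : cj ϖ ∣ (χh : 𝓞 K) - c' :=
      D.chi_N h (by rw [← ga_toF (F := F)]; exact hc') hχh
    -- the action of `h` on `g α`
    have e1 : h (g α) = ζ ^ (χ * (φ xk).val) * g α := by
      have e2 : h (g α) = g ((g⁻¹ * toF F h * g) α) := by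
        have e3 : g * (g⁻¹ * toF F h * g) = toF F h * g := by group
        have e4 : (g * (g⁻¹ * toF F h * g)) α = (toF F h * g) α := by rw [e3]
        exact e4.symm
      have e5 : (g⁻¹ * toF F h * g) α = σ' α := by rw [← hσ']; rfl
      rw [e2, e5, hk, map_mul, map_pow, hχ, ← pow_mul]
    have hh : h ζ = ζ ^ χh := hχh
    have e6 : h (α' * ζ ^ m) = ζ ^ ((φ (cj d * xh)).val + χh * m) * α' := by
      rw [map_mul, map_pow, hh, h2 h xh hxh, ← pow_mul, pow_add]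
      ring
    have e7 : ζ ^ (χ * (φ xk).val + m) = ζ ^ ((φ (cj d * xh)).val + χh * m) := by
      apply D.zeta_pow
      rw [Nat.cast_add, Nat.cast_add, Nat.cast_mul, Nat.cast_mul, hm, hval, hval, hval]
      have f1 : (χ : ZMod ℓ) * φ xk = φ ((χ : 𝓞 K) * xk) := by
        rw [← nsmul_eq_mul, ← nsmul_eq_mul, map_nsmul]
      have f2 : φ ((χ : 𝓞 K) * xk) = φ (cj d * (xh + (c' - 1) * xg)) := by
        apply hφ'
        have e : (χ : 𝓞 K) * xk - cj d * (xh + (c' - 1) * xg) =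
            ((χ : 𝓞 K) - c * cj d) * xk + cj d * (c * xk - (xh + (c' - 1) * xg)) := by ring
        rw [e]
        exact dvd_add (Dvd.dvd.mul_right hchi _) (Dvd.dvd.mul_left hconj _)
      have f3 : φ (cj d * (xh + (c' - 1) * xg)) =
          φ (cj d * xh) + φ (c' * (cj d * xg)) - φ (cj d * xg) := by
        rw [← map_add, ← map_sub]
        congr 1
        ring
      have f4 : φ (c' * (cj d * xg)) = (χh : ZMod ℓ) * φ (cj d * xg) := by
        rw [← nsmul_eq_mul, ← map_nsmul, nsmul_eq_mul]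
        symm
        apply hφ'
        rw [← sub_mul]
        exact Dvd.dvd.mul_right hchih _
      rw [f1, f2, f3, f4]
      ring
    have hp1 : ζ ^ m ≠ 0 := pow_ne_zero _ hζ0
    have hp2 : ζ ^ ((φ (cj d * xh)).val + χh * m) ≠ 0 := pow_ne_zero _ hζ0
    rw [map_div₀, e1, e6, div_eq_div_iff (mul_ne_zero hp2 hα') hne, ← e7, pow_add]
    ring
  obtain ⟨a, ha⟩ := mem_of_fixed hfix
  have ha0 : a ≠ 0 := by
    rintro rfl
    rw [map_zero] at ha
    exact div_ne_zero hgα hne ha.symm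
  refine ⟨Units.mk0 a ha0, m, ?_⟩
  rw [Units.val_mk0, ha]
  field_simp

/-- the `ℓ`-th power of an element on which `Gal(L/N)` acts by powers of `ζ` comes from `N` -/
private theorem kuc_pow {α : L} (hα : α ≠ 0) (h : ∀ σ : Gal(L/N), ∃ m : ℕ, σ α = ζ ^ m * α) :
    ∃ y : Nˣ, algebraMap N L (y : N) = α ^ ℓ := by
  haveI : IsGalois N L := IsGalois.tower_top_of_isGalois F N L
  have h1 : ∀ σ : Gal(L/N), σ (α ^ ℓ) = α ^ ℓ := by
    intro σ
    obtain ⟨m, hm⟩ := h σ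
    rw [map_pow, hm, mul_pow, ← pow_mul, mul_comm m ℓ, pow_mul, D.zeta.pow_eq_one, one_pow,
      one_mul]
  obtain ⟨a, ha⟩ := mem_of_fixed h1
  have ha0 : a ≠ 0 := by
    rintro rfl
    rw [map_zero] at ha
    exact pow_ne_zero ℓ hα ha.symm
  exact ⟨Units.mk0 a ha0, ha⟩

theorem TC.exists_KC (φ : 𝓞 K →+ ZMod ℓ) (hφ : ∀ x : 𝓞 K, cj ϖ ∣ x → φ x = 0) :
    ∃ (y : Nˣ) (α : L), KC F ϖ ℓ P₀ P₂ ζ κ φ y α := by
  haveI : IsGalois N L := IsGalois.tower_top_of_isGalois F N L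
  have hex : ∀ e : 𝓞 K, ∃ α : L, α ≠ 0 ∧ ∀ (σ : Gal(L/N)) (x : 𝓞 K),
      κ (toF F σ) = sm L x (up L P₂) → σ α = ζ ^ (φ (cj e * x)).val * α := by
    intro e
    have h := D.hilb (φ.comp (AddMonoidHom.mulLeft (cj e)))
      (fun x hx => hφ _ (Dvd.dvd.mul_left hx _))
    simpa using h
  choose α hα0 hα using hex
  have hσ : ∀ (e : 𝓞 K) (σ : Gal(L/N)), ∃ m : ℕ, σ (α e) = ζ ^ m * α e := by
    intro e σ
    obtain ⟨x, hx⟩ := D.exists_kap (toF F σ)
    exact ⟨_, hα e σ x hx⟩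
  have hy : ∀ e : 𝓞 K, ∃ y : Nˣ, algebraMap N L (y : N) = α e ^ ℓ := fun e =>
    kuc_pow D (hα0 e) (hσ e)
  choose y hy using hy
  have hadd : ∀ e e' : 𝓞 K, el ℓ (y (e + e')) = el ℓ (y e) + el ℓ (y e') := by
    intro e e'
    have hne : α e * α e' ≠ 0 := mul_ne_zero (hα0 e) (hα0 e')
    have hfix : ∀ σ : Gal(L/N), σ (α (e + e') / (α e * α e')) = α (e + e') / (α e * α e') := by
      intro σ
      obtain ⟨x, hx⟩ := D.exists_kap (toF F σ)
      have hz : ζ ^ (φ (cj (e + e') * x)).val =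
          ζ ^ (φ (cj e * x)).val * ζ ^ (φ (cj e' * x)).val := by
        haveI : NeZero ℓ := ⟨D.pd.hl.ne_zero⟩
        rw [← pow_add]
        refine D.zeta_pow ?_
        rw [Nat.cast_add, ZMod.natCast_zmod_val, ZMod.natCast_zmod_val, ZMod.natCast_zmod_val,
          map_add, add_mul, map_add]
      have h0 : ζ ≠ 0 := D.zeta.ne_zero D.pd.hl.ne_zero
      rw [map_div₀, map_mul, hα _ σ x hx, hα _ σ x hx, hα _ σ x hx, hz]
      have hz1 : ζ ^ (φ (cj e * x)).val ≠ 0 := pow_ne_zero _ h0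
      have hz2 : ζ ^ (φ (cj e' * x)).val ≠ 0 := pow_ne_zero _ h0
      have ha1 := hα0 e
      have ha2 := hα0 e'
      field_simp
    obtain ⟨a, ha⟩ := mem_of_fixed hfix
    have ha0 : a ≠ 0 := by
      rintro rfl
      rw [map_zero] at ha
      exact div_ne_zero (hα0 _) hne ha.symm
    rw [← el_mul, el_eq]
    refine ⟨Units.mk0 a ha0, ?_⟩
    apply Units.ext
    apply (algebraMap N L).injective
    rw [Units.val_mul, Units.val_mul, Units.val_pow_eq_pow_val, Units.val_mk0, map_mul, map_mul,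
      map_pow, hy, hy, hy, ha, div_pow, mul_pow]
    have hn1 : α e ^ ℓ ≠ 0 := pow_ne_zero _ (hα0 e)
    have hn2 : α e' ^ ℓ ≠ 0 := pow_ne_zero _ (hα0 e')
    field_simp
  refine ⟨y 1, α 1, ?_, hφ, ?_, ?_⟩
  · rw [hy]
  · intro σ x hx
    have h := hα 1 σ x hx
    rwa [map_one, one_mul] at h
  · refine ⟨AddMonoidHom.mk' (fun e => el ℓ (y e)) hadd, ?_⟩
    intro σ c hc
    obtain ⟨g, hg⟩ := exists_lift (L := L) σ
    have hd : ga g (up L P₀) = sm L c (up L P₀) := by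
      rw [ga_up, hg, hc, up_sm]
    have h1 : ∀ (σ : Gal(L/N)) (x : 𝓞 K), κ (toF F σ) = sm L x (up L P₂) →
        σ (α 1) = ζ ^ (φ x).val * α 1 := by
      intro τ x hx
      have h := hα 1 τ x hx
      rwa [map_one, one_mul] at h
    obtain ⟨n, m, hn⟩ := D.galois_step hφ hd (hα0 1) (hα0 c) h1 (hα c)
    change el ℓ (sg σ (y 1)) = el ℓ (y c)
    rw [el_eq]
    refine ⟨n, ?_⟩
    apply Units.ext
    apply (algebraMap N L).injective
    rw [sg_coe, ← hg, rs_apply, hy, map_pow, hn, Units.val_mul, Units.val_pow_eq_pow_val, map_mul,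
      map_pow, hy, mul_pow, mul_pow, ← pow_mul, mul_comm m ℓ, pow_mul, D.zeta.pow_eq_one, one_pow,
      mul_one, mul_comm]

end

end Pool.Agent.Lib.MP_1a91b9_nuX.DH
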