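import Pool.Agent.Lib.MP_1a91b9_nuX.DX.Sat
import Pool.Agent.Lib.MP_1a91b9_nuX.DX.SatA

/-!
# DH: saturation of the kernel of reduction over fields which are not number fields

Port of MP_1a91b9_nuT/DH/Sat.lean to the curves `y² = x³ + D`.
-/

set_option autoImplicit false

namespace Pool.Agent.Lib.MP_1a91b9_nuX.DH

variable [Pool.Agent.Lib.MP_1a91b9_nuT.CD]

open NumberField IsDedekindDomain WeierstrassCurve Pool.Agent.Lib.MP_1a91b9_nuT
open Pool.Agent.Lib.MP_1a91b9_nuX.DB Pool.Agent.Lib.MP_1a91b9_nuX.DX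

universe u


section
variable {L M : Type u} [Field L] [NumberField L] [Field M] [Algebra L M]

/-- approximation of an integral element by an integer of the number field -/
private theorem smc_int (W : HeightOneSpectrum (𝓞 L)) (v : Valuation M (WithZero (Multiplicative ℤ)))
    (hv : ∀ x : L, v (algebraMap L M x) = W.valuation L x)
    (hd : ∀ (m : M) (n : ℕ), ∃ x : L, v (m - algebraMap L M x) ≤ WithZero.exp (-(n : ℤ)))
    {m : M} (hm : v m ≤ 1) : ∃ z : 𝓞 L, v (m - algebraMap L M (z : L)) < 1 := by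
  have hexp : WithZero.exp (-((1 : ℕ) : ℤ)) < (1 : WithZero (Multiplicative ℤ)) := by
    rw [← WithZero.exp_zero, WithZero.exp_lt_exp]
    norm_num
  obtain ⟨x, hx⟩ := hd m 1
  have hx1 : v (m - algebraMap L M x) < 1 := lt_of_le_of_lt hx hexp
  have hxi : W.valuation L x ≤ 1 := by
    rw [← hv x]
    have e : algebraMap L M x = m - (m - algebraMap L M x) := by ring
    rw [e]
    exact (v.map_sub _ _).trans (max_le hm hx1.le)
  obtain ⟨z, hz⟩ := exists_val_lt_of_int W hxi 1
  refine ⟨z, ?_⟩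
  have e : m - algebraMap L M (z : L) = (m - algebraMap L M x) + algebraMap L M (x - (z : L)) := by
    rw [map_sub]
    ring
  rw [e]
  refine v.map_add_lt hx1 ?_
  rw [hv]
  exact lt_of_le_of_lt hz hexp

end

section
variable {L M : Type u} [Field L] [NumberField L] [Field M]
  [Algebra K M] [Algebra L M] [DecidableEq M]

private theorem smc_nsmul (W : HeightOneSpectrum (𝓞 L)) (v : Valuation M (WithZero (Multiplicative ℤ)))
    (hv : ∀ x : L, v (algebraMap L M x) = W.valuation L x)
    (hd : ∀ (m : M) (n : ℕ), ∃ x : L, v (m - algebraMap L M x) ≤ WithZero.exp (-(n : ℤ)))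
    (h3 : v (bD M) = 1) (P : Pt M) : ∃ n : ℕ, 0 < n ∧ Ker v (n • P) := by
  by_contra hcon
  push Not at hcon
  have hfin : Finite (𝓞 L ⧸ W.asIdeal) := Ideal.finiteQuotientOfFreeOfNeBot _ W.ne_bot
  have hX : ∀ n : ℕ, ∃ x : 𝓞 L, v (xc ((n + 1) • P) - algebraMap L M (x : L)) < 1 := fun n =>
    smc_int W v hv hd (not_ker _ (hcon (n + 1) n.succ_pos)).2.1
  have hY : ∀ n : ℕ, ∃ x : 𝓞 L, v (yc ((n + 1) • P) - algebraMap L M (x : L)) < 1 := fun n =>
    smc_int W v hv hd (not_ker _ (hcon (n + 1) n.succ_pos)).2.2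
  choose X hX using hX
  choose Y hY using hY
  obtain ⟨i, j, hij, he⟩ := Finite.exists_ne_map_eq_of_infinite
    (fun n : ℕ => (Ideal.Quotient.mk W.asIdeal (X n), Ideal.Quotient.mk W.asIdeal (Y n)))
  have hred : ∀ a b : 𝓞 L, Ideal.Quotient.mk W.asIdeal a = Ideal.Quotient.mk W.asIdeal b →
      v (algebraMap L M (a : L) - algebraMap L M (b : L)) < 1 := by
    intro a b hab
    rw [← map_sub, hv]
    have := (W.valuation_lt_one_iff_mem (K := L) (a - b)).2 (Ideal.Quotient.eq.1 hab)
    simpa using this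
  have key : ∀ i j : ℕ, i < j → Ideal.Quotient.mk W.asIdeal (X i) =
      Ideal.Quotient.mk W.asIdeal (X j) → Ideal.Quotient.mk W.asIdeal (Y i) =
      Ideal.Quotient.mk W.asIdeal (Y j) → False := by
    intro i j hij h1 h2
    have h1' := hred _ _ h1
    have h2' := hred _ _ h2
    have h4 : v (xc ((i + 1) • P) - xc ((j + 1) • P)) < 1 := by
      have e : xc ((i + 1) • P) - xc ((j + 1) • P) =
          (xc ((i + 1) • P) - algebraMap L M (X i : L)) +
          (algebraMap L M (X i : L) - algebraMap L M (X j : L)) -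
          (xc ((j + 1) • P) - algebraMap L M (X j : L)) := by ring
      rw [e]
      exact v.map_sub_lt (v.map_add_lt (hX i) h1') (hX j)
    have h5 : v (yc ((i + 1) • P) - yc ((j + 1) • P)) < 1 := by
      have e : yc ((i + 1) • P) - yc ((j + 1) • P) =
          (yc ((i + 1) • P) - algebraMap L M (Y i : L)) +
          (algebraMap L M (Y i : L) - algebraMap L M (Y j : L)) -
          (yc ((j + 1) • P) - algebraMap L M (Y j : L)) := by ring
      rw [e]
      exact v.map_sub_lt (v.map_add_lt (hY i) h2') (hY j)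
    have h6 := red_inj v h3 (hcon (i + 1) i.succ_pos) (hcon (j + 1) j.succ_pos) h4 h5
    have h7 := ker_neg _ h6
    have h8 : -((i + 1) • P - (j + 1) • P) = (j - i) • P := by
      obtain ⟨d, rfl⟩ := Nat.exists_eq_add_of_lt hij
      have e2 : i + d + 1 + 1 = (d + 1) + (i + 1) := by ring
      have e3 : i + d + 1 - i = d + 1 := by omega
      rw [e3, neg_sub, sub_eq_iff_eq_add, e2, add_nsmul]
    rw [h8] at h7
    exact hcon (j - i) (Nat.sub_pos_of_lt hij) h7
  have he1 := congrArg Prod.fst he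
  have he2 := congrArg Prod.snd he
  rcases lt_or_gt_of_ne hij with h | h
  · exact key i j h he1 he2
  · exact key j i h he1.symm he2.symm

end

section
variable {L M : Type u} [Field L] [NumberField L] [Algebra K L] [DecidableEq L] [Field M]
  [Algebra K M] [Algebra L M] [IsScalarTower K L M] [DecidableEq M]

/-- inert case: a multiple of order prime to `ℓ` lies in the kernel of reduction -/
theorem exists_coprime_kerM {ϖ : 𝓞 K} {ℓ q : ℕ} (h : PD ϖ ℓ q) (hi : cj ϖ = ϖ)
    (W : HeightOneSpectrum (𝓞 L)) (v : Valuation M (WithZero (Multiplicative ℤ)))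
    (hv : ∀ x : L, v (algebraMap L M x) = W.valuation L x)
    (hd : ∀ (m : M) (n : ℕ), ∃ x : L, v (m - algebraMap L M x) ≤ WithZero.exp (-(n : ℤ)))
    {R : Pt L} (hR : Ord ϖ R) (hW : W.valuation L (algebraMap K L (ϖ : K)) < 1) (P : Pt M) :
    ∃ n : ℕ, n.Coprime ℓ ∧ Ker v (n • P) := by
  classical
  have h3 : v (bD M) = 1 := by
    have e := hv (bD L)
    rw [bD, map_intCast] at e
    rw [bD, e]
    exact h.bad_pi hW
  have hvK : v (algebraMap K M (ϖ : K)) < 1 := by
    rw [IsScalarTower.algebraMap_apply K L M, hv]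
    exact hW
  have hex := smc_nsmul W v hv hd h3 P
  obtain ⟨hn0, hnK⟩ := Nat.find_spec hex
  refine ⟨Nat.find hex, ?_, hnK⟩
  rw [Nat.coprime_comm, h.hl.coprime_iff_not_dvd]
  rintro ⟨m, hm⟩
  have hq : q = ℓ ^ 2 := by
    rcases pd_cases h with ⟨_, hc⟩ | ⟨hq, _⟩
    · rw [hi] at hc
      exact absurd (isCoprime_self.1 hc) h.prime.not_isUnit
    · exact hq
  have hsq : (ϖ - (ℓ : 𝓞 K)) * (ϖ + (ℓ : 𝓞 K)) = 0 := by
    have e := pd_mul_cj h
    rw [hi, hq] at e
    push_cast at e
    linear_combination e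
  have hm0 : 0 < m := by
    rcases Nat.eq_zero_or_pos m with h0 | h0
    · rw [h0, mul_zero] at hm
      omega
    · exact h0
  have hl1 : 1 < ℓ := h.hl.one_lt
  have hmn : m < Nat.find hex := by
    rw [hm]
    exact lt_mul_of_one_lt_left hm0 hl1
  refine Nat.find_min hex hmn ⟨hm0, ?_⟩
  apply ker_of_sm v h.prime hvK h3
  rw [hm, mul_nsmul', ← sm_nat] at hnK
  rcases mul_eq_zero.1 hsq with h1 | h1
  · rw [sub_eq_zero.1 h1]
    exact hnK
  · rw [eq_neg_of_add_eq_zero_left h1, map_neg]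
    exact ker_neg _ hnK

end

end Pool.Agent.Lib.MP_1a91b9_nuX.DH
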