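import Pool.Agent.Lib.MP_1a91b9_nuX.DH.Unr
import Pool.Agent.Lib.MP_1a91b9_nuX.DH.Sat
import Pool.Agent.Lib.MP_1a91b9_nuX.DX.Lev

/-!
# DH: inert case, local condition at the places above `ϖ` (adapted from DX/Lev)

Port of MP_1a91b9_nuT/DH/Lev.lean to the curves `y² = x³ + D`.
-/

set_option autoImplicit false

namespace Pool.Agent.Lib.MP_1a91b9_nuX.DH

variable [Pool.Agent.Lib.MP_1a91b9_nuT.CD]

open NumberField IsDedekindDomain WeierstrassCurve Pool.Agent.Lib.MP_1a91b9_nuT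
open Pool.Agent.Lib.MP_1a91b9_nuX.DB Pool.Agent.Lib.MP_1a91b9_nuX.DX

universe u

variable [HC]

/-- an inertia automorphism fixes the place -/
private theorem lha_gpl {k L : Type u} [Field k] [NumberField k] [Field L] [NumberField L]
    [Algebra k L] (W : HeightOneSpectrum (𝓞 L)) (σ : Gal(L/k))
    (hσ : ∀ x : 𝓞 L, σ • x - x ∈ W.asIdeal) : gpl σ W = W := by
  apply HeightOneSpectrum.ext
  ext x
  have h1 : x ∈ (gpl σ W).asIdeal ↔ σ⁻¹ • x ∈ W.asIdeal := Iff.rfl
  have h2 : x - σ⁻¹ • x ∈ W.asIdeal := by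
    have h := hσ (σ⁻¹ • x)
    rwa [smul_inv_smul] at h
  rw [h1]
  constructor
  · intro h
    have := W.asIdeal.add_mem h2 h
    rwa [sub_add_cancel] at this
  · intro h
    have := W.asIdeal.sub_mem h h2
    rwa [sub_sub_cancel] at this

private theorem lha_card {N L : Type u} [Field N] [NumberField N] [Field L] [NumberField L]
    [Algebra N L] [IsGalois N L] (W : HeightOneSpectrum (𝓞 L)) :
    Nat.card (W.asIdeal.inertia Gal(L/N)) = W.asIdeal.ramificationIdx (𝓞 N) := by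
  have hp0 : W.asIdeal.under (𝓞 N) ≠ ⊥ := (W.under (𝓞 N)).ne_bot
  have hfin : Finite (𝓞 N ⧸ W.asIdeal.under (𝓞 N)) :=
    Ideal.finiteQuotientOfFreeOfNeBot _ hp0
  have h2 := Ideal.card_inertia_eq_ramificationIdxIn (G := Gal(L/N)) (W.asIdeal.under (𝓞 N))
    W.asIdeal
  rw [Ideal.ramificationIdxIn_eq_ramificationIdx _ W.asIdeal Gal(L/N)] at h2
  exact h2

private theorem lha_tower {N N' L : Type u} [Field N] [NumberField N] [Field N'] [NumberField N']
    [Field L] [NumberField L] [Algebra N N'] [Algebra N' L] [Algebra N L] [IsScalarTower N N' L]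
    (W : HeightOneSpectrum (𝓞 L)) :
    W.asIdeal.ramificationIdx (𝓞 N) =
      W.asIdeal.ramificationIdx (𝓞 N') * (W.under (𝓞 N')).asIdeal.ramificationIdx (𝓞 N) := by
  obtain ⟨z, hz⟩ := exists_od_one (W.under (𝓞 N))
  have hu : (W.under (𝓞 N')).under (𝓞 N) = W.under (𝓞 N) := by
    apply HeightOneSpectrum.ext
    ext x
    change algebraMap (𝓞 N') (𝓞 L) (algebraMap (𝓞 N) (𝓞 N') x) ∈ W.asIdeal ↔
      algebraMap (𝓞 N) (𝓞 L) x ∈ W.asIdeal
    have h1 : algebraMap (𝓞 N') (𝓞 L) (algebraMap (𝓞 N) (𝓞 N') x) = algebraMap (𝓞 N) (𝓞 L) x := by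
      apply RingOfIntegers.ext
      exact (IsScalarTower.algebraMap_apply N N' L (x : N)).symm
    rw [h1]
  have h1 := od_map (k := N) W z
  rw [hz, mul_one] at h1
  have h2 := od_map (k := N') W (algebraMap N N' z)
  have h3 := od_map (k := N) (W.under (𝓞 N')) z
  rw [hu, hz, mul_one] at h3
  rw [h3, ← IsScalarTower.algebraMap_apply N N' L z, h1] at h2
  exact_mod_cast h2

private theorem lha_core {N N' L : Type u} [Field N] [NumberField N] [Field N'] [NumberField N']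
    [Field L] [NumberField L] [Algebra N N'] [Algebra N' L] [Algebra N L] [IsScalarTower N N' L]
    [IsGalois N L] [IsGalois N' L] (W : HeightOneSpectrum (𝓞 L))
    (hD : ∀ σ : Gal(L/N), gpl σ W = W → ∃ τ : Gal(L/N'), toF N τ = σ) :
    (W.under (𝓞 N')).asIdeal.ramificationIdx (𝓞 N) = 1 := by
  have hc : Nat.card (W.asIdeal.inertia Gal(L/N')) = Nat.card (W.asIdeal.inertia Gal(L/N)) := by
    refine Nat.card_eq_of_bijective
      (fun τ : W.asIdeal.inertia Gal(L/N') =>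
        (⟨toF N τ.1, fun x => τ.2 x⟩ : W.asIdeal.inertia Gal(L/N))) ⟨?_, ?_⟩
    · rintro ⟨τ, hτ⟩ ⟨τ', hτ'⟩ h
      apply Subtype.ext
      refine AlgEquiv.ext fun z => ?_
      have h1 : toF N τ = toF N τ' := congrArg Subtype.val h
      exact congrArg (fun g : Gal(L/N) => g z) h1
    · rintro ⟨σ, hσ⟩
      obtain ⟨τ, hτ⟩ := hD σ (lha_gpl W σ fun x => hσ x)
      refine ⟨⟨τ, fun x => ?_⟩, Subtype.ext hτ⟩
      have h1 := hσ x
      rw [← hτ] at h1
      exact h1
  rw [lha_card, lha_card, lha_tower (N := N) (N' := N') W] at hc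
  have hpos : 0 < W.asIdeal.ramificationIdx (𝓞 N') := ramIdx_pos W
  exact (Nat.eq_of_mul_eq_mul_left hpos ((mul_one _).trans hc)).symm
/-- `val_prod` for every instance -/
private theorem lhd_prod {N L : Type u} [Field N] [NumberField N] [Field L] [NumberField L]
    [Algebra N L] (W : HeightOneSpectrum (𝓞 L)) (H : Subgroup Gal(L/N)) (i : Fintype H)
    (τ : Gal(L/N)) {T : L} (hT : ∀ σ : Gal(L/N), W.valuation L (σ T) ≤ 1)
    {r : WithZero (Multiplicative ℤ)}
    (hr : ∀ z : L, (∀ h ∈ H, h z = z) → W.valuation L z ≤ 1 → W.valuation L (τ z - z) ≤ r) :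
    W.valuation L (∏ h ∈ @Finset.univ H i, (T - τ ((h : Gal(L/N)) T))) ≤ r := by
  have h1 := val_prod W H τ hT hr
  have h2 : ∀ j k : Fintype H, @Finset.univ H j = @Finset.univ H k := by
    intro j k
    rw [Subsingleton.elim j k]
  rw [h2 i _]
  exact h1

/-- the end of the proof: everything over a field `N'` -/
private theorem lhd_end {N L : Type u} [Field N] [NumberField N] [Field L] [NumberField L]
    [Algebra N L] [IsGalois N L] {ℓ : ℕ} (hℓ : ℓ.Prime) (W : HeightOneSpectrum (𝓞 L))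
    {a : N} {α α' ζ T : L} {e : ℤ} (he0 : 0 < e) (hα' : α' ^ ℓ = algebraMap N L a)
    (ha : (W.under (𝓞 N)).valuation N (a - 1) = WithZero.exp (-1 : ℤ))
    (hl : 2 ≤ od (W.under (𝓞 N)) (ℓ : N)) (hfix : ∀ σ : Gal(L/N), σ α' = α' ↔ σ α = α)
    (hT : ∀ σ : Gal(L/N), W.valuation L (σ T) ≤ 1)
    (hT2 : ∀ σ : Gal(L/N), σ α ≠ α → od W (T - σ T) = e)
    (hcard : Nat.card {σ : Gal(L/N) // σ α = α} ≤ ℓ) {τ : Gal(L/N)} (hτ : τ α ≠ α) {m : ℕ}
    (hact : τ α' = ζ ^ m * α') (hζ : ζ ^ ℓ = 1) (hξ0 : ζ ^ m - 1 ≠ 0)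
    (hodξ : od W (ζ ^ m - 1) = e * ((ℓ : ℤ) + 1)) : False := by
  have hfin : Module.Finite N L := Module.Finite.of_restrictScalars_finite ℚ N L
  have hξ1 : W.valuation L (ζ ^ m) ≤ 1 := by
    have h1 : W.valuation L ζ ^ ℓ = 1 := by
      rw [← map_pow, hζ, map_one]
    have h2 : W.valuation L ζ = 1 := (pow_eq_one_iff_left hℓ.ne_zero).mp h1
    rw [map_pow, h2, one_pow]
  -- the stabilizer of `α`
  obtain ⟨H, hH⟩ : ∃ H : Subgroup Gal(L/N), ∀ σ : Gal(L/N), σ ∈ H ↔ σ α = α := by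
    refine ⟨{ carrier := {σ | σ α = α}, mul_mem' := ?_, one_mem' := ?_, inv_mem' := ?_ },
      fun σ => Iff.rfl⟩
    · intro a b ha hb
      show (a * b) α = α
      rw [AlgEquiv.mul_apply]
      rw [show b α = α from hb]
      exact ha
    · rfl
    · intro a ha
      show a⁻¹ α = α
      have h1 : a α = α := ha
      calc a⁻¹ α = a⁻¹ (a α) := by rw [h1]
        _ = (a⁻¹ * a) α := (AlgEquiv.mul_apply _ _ _).symm
        _ = α := by rw [inv_mul_cancel]; rfl
  have hcard' : Nat.card H ≤ ℓ := by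
    have h2 : Nat.card {σ : Gal(L/N) // σ α = α} = Nat.card H :=
      Nat.card_congr (Equiv.subtypeEquivRight fun σ => (hH σ).symm)
    rw [← h2]
    exact hcard
  obtain ⟨i⟩ : Nonempty (Fintype H) := ⟨Fintype.ofFinite H⟩
  rw [Nat.card_eq_fintype_card] at hcard'
  have hcard2 : (Fintype.card H : ℤ) ≤ ℓ := by exact_mod_cast hcard'
  have hr : ∀ z : L, (∀ h ∈ H, h z = z) → W.valuation L z ≤ 1 →
      W.valuation L (τ z - z) ≤ W.valuation L (ζ ^ m - 1) := by
    intro z hz hz1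
    refine val_sub_of_level hℓ W hα' ha hl ?_ hz1 hξ1 hact
    intro σ hσ
    apply hz σ
    rw [hH]
    exact (hfix σ).1 hσ
  have hprod := lhd_prod W H i τ (T := T) hT hr
  -- the factors
  have hfac : ∀ h : H, od W (T - τ ((h : Gal(L/N)) T)) = e := by
    intro h
    have h1 := hT2 (τ * (h : Gal(L/N))) (by
      rw [AlgEquiv.mul_apply, (hH _).mp h.2]
      exact hτ)
    exact h1
  have hfac0 : ∀ h : H, T - τ ((h : Gal(L/N)) T) ≠ 0 := by
    intro h h0
    have h1 := hfac h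
    rw [h0] at h1
    have h2 : od W (0 : L) = 0 := by
      unfold od
      rw [map_zero, WithZero.log_zero, neg_zero]
    rw [h2] at h1
    omega
  have hprod0 : ∏ h ∈ @Finset.univ H i, (T - τ ((h : Gal(L/N)) T)) ≠ 0 :=
    Finset.prod_ne_zero_iff.mpr fun h _ => hfac0 h
  have hprod' : od W (ζ ^ m - 1) ≤ od W (∏ h ∈ @Finset.univ H i, (T - τ ((h : Gal(L/N)) T))) := by
    rw [← val_le_val_iff W hprod0 hξ0]
    exact hprod
  rw [od_prod W _ _ (fun h _ => hfac0 h), Finset.sum_congr rfl (fun h _ => hfac h),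
    Finset.sum_const, Finset.card_univ, nsmul_eq_mul, hodξ] at hprod'
  nlinarith

/-- the decomposition field of a place -/
theorem exists_dec {N L : Type u} [Field N] [NumberField N] [Algebra K N] [Field L] [NumberField L]
    [Algebra K L] [Algebra N L] [IsScalarTower K N L] [IsGalois N L]
    (W : HeightOneSpectrum (𝓞 L)) :
    ∃ (N' : Type u) (_ : Field N') (_ : NumberField N') (_ : Algebra K N') (_ : Algebra N N')
      (_ : Algebra N' L) (_ : IsScalarTower K N N') (_ : IsScalarTower K N' L)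
      (_ : IsScalarTower N N' L), IsGalois N' L ∧
      (W.under (𝓞 N')).asIdeal.ramificationIdx (𝓞 N) = 1 ∧
      ∀ σ : Gal(L/N'), gpl (toF N σ) W = W := by
  have hfin : FiniteDimensional N L := Module.Finite.of_restrictScalars_finite ℚ N L
  let D' : Subgroup Gal(L/N) :=
    { carrier := {σ | gpl σ W = W}
      mul_mem' := by
        intro σ τ hσ hτ
        show gpl (σ * τ) W = W
        rw [gpl_mul, show gpl τ W = W from hτ, show gpl σ W = W from hσ]
      one_mem' := gpl_one W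
      inv_mem' := by
        intro σ hσ
        show gpl σ⁻¹ W = W
        have h1 : gpl (σ⁻¹ * σ) W = W := by rw [inv_mul_cancel, gpl_one]
        rw [gpl_mul, show gpl σ W = W from hσ] at h1
        exact h1 }
  have hDmem : ∀ σ : Gal(L/N), σ ∈ D' ↔ gpl σ W = W := fun σ => Iff.rfl
  have hfix : (IntermediateField.fixedField D').fixingSubgroup = D' :=
    IntermediateField.fixingSubgroup_fixedField D'
  let iK : Algebra K (IntermediateField.fixedField D') :=
    ((algebraMap N (IntermediateField.fixedField D')).comp (algebraMap K N)).toAlgebra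
  have iT1 : IsScalarTower K N (IntermediateField.fixedField D') :=
    IsScalarTower.of_algebraMap_eq fun x => rfl
  have iT2 : IsScalarTower K (IntermediateField.fixedField D') L := by
    refine IsScalarTower.of_algebraMap_eq fun x => ?_
    rw [IsScalarTower.algebraMap_apply K N L x]
    rfl
  have iT3 : IsScalarTower N (IntermediateField.fixedField D') L := inferInstance
  have iG : IsGalois (IntermediateField.fixedField D') L := inferInstance
  refine ⟨IntermediateField.fixedField D', inferInstance, inferInstance, iK, inferInstance,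
    inferInstance, iT1, iT2, iT3, iG, ?_, ?_⟩
  · refine lha_core W fun σ hσ => ?_
    have hc : ∀ x : IntermediateField.fixedField D', σ.toRingEquiv (algebraMap _ L x) =
        algebraMap _ L x := fun x => x.2 ⟨σ, hσ⟩
    exact ⟨AlgEquiv.ofRingEquiv (f := σ.toRingEquiv) hc, AlgEquiv.ext fun _ => rfl⟩
  · intro σ
    have h1 : toF N σ ∈ (IntermediateField.fixedField D').fixingSubgroup :=
      fun x => σ.commutes x
    exact (hDmem _).1 (hfix.le h1)

section
variable {F N N₂ L : Type u} [Field F] [NumberField F] [Algebra K F] [Field N] [NumberField N]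
  [Algebra K N] [Field N₂] [NumberField N₂] [Algebra K N₂] [Field L] [NumberField L] [Algebra K L]
  [Algebra F N] [Algebra F N₂] [Algebra F L] [Algebra N L] [Algebra N₂ L]
  [IsScalarTower K F N] [IsScalarTower K F N₂] [IsScalarTower K F L] [IsScalarTower K N L]
  [IsScalarTower K N₂ L] [IsScalarTower F N L] [IsScalarTower F N₂ L]
  [DecidableEq F] [DecidableEq N] [DecidableEq N₂] [DecidableEq L]
  [IsGalois F N] [IsGalois F N₂] [IsGalois F L]
  {ϖ : 𝓞 K} {ℓ q : ℕ} {P₀ : Pt N} {P₂ : Pt N₂} {ζ : L} {κ : Gal(L/F) → Pt L}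
  (D : TC ϖ ℓ q P₀ P₂ ζ κ) (hi : cj ϖ = ϖ)
include D hi

/-- the second point is a multiple of the first one -/
private theorem lvd_exists : ∃ e : 𝓞 K, up L P₂ = sm L e (up L P₀) := by
  have h1 : Ord ϖ (up L P₀) := (ord_up L).2 D.full.ord
  have h2 : Ord ϖ (up L P₂) := by
    have h3 := (ord_up L).2 D.full₂.ord
    rw [hi] at h3
    exact h3
  obtain ⟨f⟩ := exists_emb L
  exact ord_cases f D.pd.prime.ne_zero h1 ((h2 ϖ).2 dvd_rfl)

/-- the automorphisms over `N` fix the second point -/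
private theorem lvd_fix (σ : Gal(L/N)) : ga σ (up L P₂) = up L P₂ := by
  obtain ⟨e, he⟩ := lvd_exists D hi
  rw [he, ga_sm, ga_up_self]

theorem TC.zeta_mem : ∃ ζ' : N, IsPrimitiveRoot ζ' ℓ ∧ algebraMap N L ζ' = ζ := by
  have hfix : ∀ σ : Gal(L/N), σ ζ = ζ := by
    intro σ
    have h1 := D.chi_fix (toF F σ) (by rw [ga_toF, ga_up_self])
      (by rw [ga_toF]; exact lvd_fix D hi σ)
    exact h1
  have hgal : IsGalois N L := IsGalois.tower_top_of_isGalois F N L
  obtain ⟨ζ', hζ'⟩ := mem_of_fixed (F := N) hfix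
  refine ⟨ζ', ?_, hζ'⟩
  have h2 := D.zeta
  rw [← hζ'] at h2
  exact IsPrimitiveRoot.of_map_of_injective h2 (algebraMap N L).injective

theorem TC.exists_T (W : HeightOneSpectrum (𝓞 L)) (hloc : LocSol κ W)
    (hW : W.valuation L (algebraMap K L (ϖ : K)) < 1) (ht : od (W.under (𝓞 N)) (tc P₀) = 1) :
    ∃ T : L, ∀ σ : Gal(L/N), gpl σ W = W → W.valuation L (σ T) < 1 ∧
      ∀ x : 𝓞 K, κ (toF F σ) = sm L x (up L P₂) → ¬ ϖ ∣ x →
        od W (T - σ T) = (W.asIdeal.ramificationIdx (𝓞 N) : ℤ) := by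
  obtain ⟨M, iM1, iM2, iM3, iM4, iM5, v, P, hv, hd, hf⟩ := hloc
  have hR : Ord ϖ (up L P₀) := (ord_up L).2 D.full.ord
  have hR₂ : Ord ϖ (up L P₂) := by
    have h1 := (ord_up L).2 D.full₂.ord
    rw [hi] at h1
    exact h1
  have hKR : Ker (W.valuation L) (up L P₀) :=
    ker_of_val _ D.pd.prime hR hW (D.pd.bad_pi hW)
  obtain ⟨n, hn, hS⟩ := exists_coprime_kerM D.pd hi W v hv hd hR hW P
  obtain ⟨S, hSd⟩ : ∃ S : Pt M, S = n • P := ⟨_, rfl⟩
  rw [← hSd] at hS
  obtain ⟨r, hrd⟩ : ∃ r : ℕ, r = W.asIdeal.ramificationIdx (𝓞 N) := ⟨_, rfl⟩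
  have hr0 : 0 < r := by
    rw [hrd]
    exact ramIdx_pos (k := N) W
  obtain ⟨T, hT⟩ := hd (tc S) (r + 1)
  have hlt : (WithZero.exp (-((r + 1 : ℕ) : ℤ)) : WithZero (Multiplicative ℤ)) <
      WithZero.exp (-(r : ℤ)) := by
    rw [WithZero.exp_lt_exp]
    push_cast
    omega
  have hlt1 : (WithZero.exp (-((r + 1 : ℕ) : ℤ)) : WithZero (Multiplicative ℤ)) < 1 := by
    rw [← WithZero.exp_zero, WithZero.exp_lt_exp]
    push_cast
    omega
  have h2L : W.valuation L (2 : L) = 1 := by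
    have h3 : ¬ ϖ ∣ ((2 : ℤ) : 𝓞 K) := by
      rw [D.pd.dvd_int_iff]
      intro h4
      have h5 := Int.le_of_dvd (by norm_num) h4
      have := D.pd.five
      omega
    have h4 := pd_val_coprime D.pd (w := W) hW h3
    have h5 : algebraMap K L ((((2 : ℤ) : 𝓞 K) : K)) = (2 : L) := by
      have h6 : ((((2 : ℤ) : 𝓞 K) : K)) = ((2 : ℤ) : K) := by
        change algebraMap (𝓞 K) K ((2 : ℤ) : 𝓞 K) = _
        rw [map_intCast]
      rw [h6, map_intCast]
      norm_num
    rw [h5] at h4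
    exact h4
  have h2M : v (2 : M) = 1 := by
    have h3 := hv (2 : L)
    rw [h2L, map_ofNat] at h3
    exact h3
  -- the value of the local parameter of the multiples
  have hmul : ∀ c : 𝓞 K, ¬ ϖ ∣ c →
      W.valuation L (tc (sm L c (up L P₀))) = W.valuation L (tc (up L P₀)) := by
    intro c hc
    refine le_antisymm (ker_sm_le _ hKR c) ?_
    obtain ⟨d, hd'⟩ := D.pd.inv hc
    have h6 : sm L d (sm L c (up L P₀)) = up L P₀ := by
      have h7 : sm L (c * d) (up L P₀) = sm L 1 (up L P₀) := (hR.sm_eq_iff _ _).2 hd'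
      rw [mul_comm, map_mul, map_one] at h7
      exact h7
    calc W.valuation L (tc (up L P₀)) = W.valuation L (tc (sm L d (sm L c (up L P₀)))) := by rw [h6]
      _ ≤ W.valuation L (tc (sm L c (up L P₀))) := ker_sm_le _ (ker_sm _ hKR c) d
  obtain ⟨e, he⟩ := lvd_exists D hi
  have hed : ¬ ϖ ∣ e := by
    intro h6
    have h7 : up L P₂ = 0 := by
      rw [he]
      exact (hR e).2 h6
    have h8 : ϖ ∣ (1 : 𝓞 K) := by
      rw [← hR₂ 1, h7, map_zero]
    exact D.pd.prime.not_isUnit (isUnit_of_dvd_one h8)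
  have hnd : ¬ ϖ ∣ (n : 𝓞 K) := by
    intro h6
    have h7 : ϖ ∣ ((n : ℤ) : 𝓞 K) := by
      rw [Int.cast_natCast]
      exact h6
    rw [D.pd.dvd_int_iff] at h7
    have h8 : ℓ ∣ n := by exact_mod_cast h7
    have h9 : ℓ ∣ 1 := by
      rw [← hn.gcd_eq_one]
      exact Nat.dvd_gcd h8 dvd_rfl
    exact D.pd.hl.one_lt.ne' (Nat.dvd_one.1 h9)
  -- the value of the local parameter of the torsion point
  have hod0 : od W (tc (up L P₀)) = (r : ℤ) := by
    rw [tc_up, od_map, ht, mul_one, hrd]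
  have htc0 : tc (up L P₀) ≠ 0 := by
    intro h0
    rw [h0] at hod0
    have h1 : od W (0 : L) = 0 := by
      unfold od
      rw [map_zero, WithZero.log_zero, neg_zero]
    rw [h1] at hod0
    omega
  have hval0 : W.valuation L (tc (up L P₀)) = WithZero.exp (-(r : ℤ)) := by
    rw [val_eq W htc0, hod0]
  refine ⟨T, fun σ hσ => ?_⟩
  have hσ' : gpl (toF F σ) W = W := hσ
  obtain ⟨f, hfv, hfL, hfP⟩ := hf (toF F σ) hσ'
  have hKs : Ker v (pm f S) := by
    rcases hS with h1 | h1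
    · left
      rw [h1, map_zero]
    · right
      rw [xc_pm, hfv]
      exact h1
  have htc : tc (pm f S) = f (tc S) := tc_pm f S
  have hvT : v (algebraMap L M T) < 1 := by
    have h1 : algebraMap L M T = tc S - (tc S - algebraMap L M T) := by ring
    rw [h1]
    exact lt_of_le_of_lt (v.map_sub _ _) (max_lt (ker_tc_lt v hS) (lt_of_le_of_lt hT hlt1))
  refine ⟨?_, fun x hx hxd => ?_⟩
  · have h1 := gpl_val σ W T
    rw [hσ] at h1
    rw [h1, ← hv]
    exact hvT
  · have hdiff : S - pm f S = pm (IsScalarTower.toAlgHom K L M)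
        (sm L (-((n : 𝓞 K) * x * e)) (up L P₀)) := by
      have h1 : pm f S - S = pm (IsScalarTower.toAlgHom K L M)
          (sm L ((n : 𝓞 K) * x * e) (up L P₀)) := by
        have h3 : sm L ((n : 𝓞 K) * x * e) (up L P₀) = n • κ (toF F σ) := by
          rw [hx, he, ← sm_nat, mul_assoc, map_mul, map_mul]
          rfl
        rw [h3, map_nsmul, ← hfP, hSd, map_nsmul, nsmul_sub]
      have h4 : sm L (-((n : 𝓞 K) * x * e)) (up L P₀) = -(sm L ((n : 𝓞 K) * x * e) (up L P₀)) := by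
        rw [map_neg]
        rfl
      rw [h4, map_neg, ← h1, neg_sub]
    have hcd : ¬ ϖ ∣ -((n : 𝓞 K) * x * e) := by
      rw [dvd_neg]
      intro h12
      rcases D.pd.prime.dvd_or_dvd h12 with h13 | h13
      · rcases D.pd.prime.dvd_or_dvd h13 with h14 | h14
        · exact hnd h14
        · exact hxd h14
      · exact hed h13
    have hmain : v (tc S - f (tc S)) = WithZero.exp (-(r : ℤ)) := by
      rw [← htc, ← tc_sub v h2M hS hKs, hdiff, tc_pm]
      have h1 := hv (tc (sm L (-((n : 𝓞 K) * x * e)) (up L P₀)))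
      rw [hmul _ hcd, hval0] at h1
      exact h1
    have hsum : algebraMap L M (T - σ T) = (tc S - f (tc S)) +
        (f (tc S - algebraMap L M T) - (tc S - algebraMap L M T)) := by
      have h1 : f (algebraMap L M T) = algebraMap L M (σ T) := hfL T
      rw [map_sub, map_sub, h1]
      ring
    have hsmall : v (f (tc S - algebraMap L M T) - (tc S - algebraMap L M T)) <
        v (tc S - f (tc S)) := by
      rw [hmain]
      refine lt_of_le_of_lt (v.map_sub _ _) (max_lt ?_ ?_)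
      · rw [hfv]
        exact lt_of_le_of_lt hT hlt
      · exact lt_of_le_of_lt hT hlt
    have hfin : W.valuation L (T - σ T) = WithZero.exp (-(r : ℤ)) := by
      rw [← hv, hsum, v.map_add_eq_of_lt_left hsmall, hmain]
    unfold od
    rw [hfin, WithZero.log_exp, neg_neg, hrd]

theorem TC.card_stab (hq : q = ℓ ^ 2) {φ : 𝓞 K →+ ZMod ℓ} (hφ : φ ≠ 0) {y : Nˣ} {α : L}
    (hK : KC F ϖ ℓ P₀ P₂ ζ κ φ y α) :
    Nat.card {σ : Gal(L/N) // σ α = α} ≤ ℓ := by
  have hℓ := D.pd.hl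
  have : NeZero ℓ := ⟨hℓ.ne_zero⟩
  have : Fact ℓ.Prime := ⟨hℓ⟩
  obtain ⟨x₁, hx₁⟩ : ∃ x₁ : 𝓞 K, φ x₁ ≠ 0 := by
    by_contra hcon
    push Not at hcon
    exact hφ (AddMonoidHom.ext hcon)
  have hker : ∀ x : 𝓞 K, ϖ ∣ x → φ x = 0 := by
    have h1 := hK.ker
    rw [hi] at h1
    exact h1
  have hα : α ≠ 0 := by
    rintro rfl
    have h1 := hK.pow
    rw [zero_pow hℓ.ne_zero] at h1
    exact (map_ne_zero (algebraMap N L)).2 y.ne_zero h1.symm
  choose x hx using fun σ : Gal(L/N) => D.exists_kap (toF F σ)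
  have hx' : ∀ σ : Gal(L/N), κ (toF F σ) = sm L (x σ) (up L P₂) := hx
  have hφx : ∀ σ : Gal(L/N), σ α = α → φ (x σ) = 0 := by
    intro σ hσ
    have h1 := hK.act σ (x σ) (hx' σ)
    rw [hσ] at h1
    have h2 : ζ ^ (φ (x σ)).val = 1 := by
      have h3 : ζ ^ (φ (x σ)).val * α = 1 * α := by rw [one_mul]; exact h1.symm
      exact mul_right_cancel₀ hα h3
    have h3 := (D.zeta.pow_eq_one_iff_dvd _).1 h2
    have h4 := Nat.eq_zero_of_dvd_of_lt h3 (ZMod.val_lt _)
    exact (ZMod.val_eq_zero _).1 h4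
  have hinj : ∀ σ σ' : Gal(L/N), ϖ ∣ x σ - x σ' → σ = σ' := by
    intro σ σ' h1
    have h2 : sm L (x σ) (up L P₂) = sm L (x σ') (up L P₂) := by
      rw [D.kap_unique, hi]
      exact h1
    rw [← hx', ← hx'] at h2
    have h5 : κ (toF F (σ⁻¹ * σ')) = 0 := by
      have e1 : toF F (σ⁻¹ * σ') = toF F σ⁻¹ * toF F σ' := rfl
      have e2 : toF F σ⁻¹ * toF F σ = 1 := by
        refine AlgEquiv.ext fun z => ?_
        show σ⁻¹ (σ z) = z
        exact σ.symm_apply_apply z
      rw [e1, D.coc, ← h2, ← D.coc, e2, D.kap_one]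
    have h6 : toF F (σ⁻¹ * σ') = 1 := by
      refine D.gen _ ?_ ?_ ?_ ?_
      · rw [ga_toF, ga_up_self]
      · rw [ga_toF]
        exact lvd_fix D hi _
      · exact h5
      · exact D.chi_fix _ (by rw [ga_toF, ga_up_self]) (by rw [ga_toF]; exact lvd_fix D hi _)
    have h7 : σ⁻¹ * σ' = 1 := by
      refine AlgEquiv.ext fun z => ?_
      have h8 := congrArg (fun g : Gal(L/F) => g z) h6
      exact h8
    exact inv_mul_eq_one.1 h7
  have hfin : Finite (𝓞 K ⧸ Ideal.span {ϖ}) := by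
    refine Nat.finite_of_card_ne_zero ?_
    have h1 := D.pd.norm
    rw [Ideal.absNorm_apply, Submodule.cardQuot_apply] at h1
    rw [h1, hq]
    exact pow_ne_zero 2 hℓ.ne_zero
  have hcard : Nat.card (𝓞 K ⧸ Ideal.span {ϖ}) = ℓ ^ 2 := by
    have h1 := D.pd.norm
    rw [Ideal.absNorm_apply, Submodule.cardQuot_apply] at h1
    rw [h1, hq]
  have hle : Nat.card ({σ : Gal(L/N) // σ α = α} × ZMod ℓ) ≤ Nat.card (𝓞 K ⧸ Ideal.span {ϖ}) := by
    refine Nat.card_le_card_of_injective (fun p : {σ : Gal(L/N) // σ α = α} × ZMod ℓ =>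
      Ideal.Quotient.mk (Ideal.span {ϖ}) (x p.1 + p.2.val • x₁)) ?_
    rintro ⟨⟨σ, hσ⟩, j⟩ ⟨⟨σ', hσ'⟩, j'⟩ h1
    have h2 : ϖ ∣ (x σ + j.val • x₁) - (x σ' + j'.val • x₁) := by
      rw [← Ideal.mem_span_singleton, ← Ideal.Quotient.eq]
      exact h1
    have h3 := hker _ h2
    rw [map_sub, map_add, map_add, map_nsmul, map_nsmul, hφx σ hσ, hφx σ' hσ', zero_add, zero_add,
      nsmul_eq_mul, nsmul_eq_mul, ZMod.natCast_zmod_val, ZMod.natCast_zmod_val, ← sub_mul,
      mul_eq_zero] at h3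
    have h4 : j = j' := sub_eq_zero.1 (h3.resolve_right hx₁)
    subst h4
    have h5 : ϖ ∣ x σ - x σ' := by
      have h6 : (x σ + j.val • x₁) - (x σ' + j.val • x₁) = x σ - x σ' := by ring
      rwa [h6] at h2
    have h7 := hinj σ σ' h5
    subst h7
    rfl
  rw [Nat.card_prod, Nat.card_zmod, hcard, sq] at hle
  exact Nat.le_of_mul_le_mul_right hle hℓ.pos

theorem TC.wloc_inert (hq : q = ℓ ^ 2) {φ : 𝓞 K →+ ZMod ℓ} (hφ : φ ≠ 0) {y : Nˣ} {α : L}
    (hK : KC F ϖ ℓ P₀ P₂ ζ κ φ y α) (hloc : ∀ W : HeightOneSpectrum (𝓞 L), LocSol κ W)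
    (w : HeightOneSpectrum (𝓞 N)) (hw : w.valuation N (algebraMap K N (ϖ : K)) < 1)
    (ht : od w (tc P₀) = 1) (hl : od w (ℓ : N) = (ℓ : ℤ) ^ 2 - 1) (hd : (ℓ : ℤ) ∣ od w (y : N)) :
    WLoc ℓ w (y : N) := by
  by_contra hn
  have hGal : IsGalois N L := IsGalois.tower_top_of_isGalois F N L
  have hℓ : ℓ.Prime := D.pd.hl
  have hℓ5 : 5 ≤ ℓ := D.pd.five
  have hℓ5' : (5 : ℤ) ≤ (ℓ : ℤ) := by exact_mod_cast hℓ5
  have hℓN : (ℓ : N) ≠ 0 := Nat.cast_ne_zero.mpr hℓ.ne_zero
  have hl2 : 2 ≤ od w (ℓ : N) := by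
    rw [hl]
    nlinarith
  have hwℓ : w.valuation N (ℓ : N) < 1 := by
    rw [val_lt_one_iff w hℓN]
    omega
  obtain ⟨b, hb0, hb⟩ := exists_level hℓ hwℓ y.ne_zero hd hn
  obtain ⟨W, hWw⟩ := CF.exists_over (N := L) w
  obtain ⟨ζ', hζ', hζζ⟩ := D.zeta_mem hi
  have he0 : 0 < (W.asIdeal.ramificationIdx (𝓞 N) : ℤ) := by
    exact_mod_cast ramIdx_pos (k := N) W
  have hWϖ : W.valuation L (algebraMap K L (ϖ : K)) < 1 := by
    rw [IsScalarTower.algebraMap_apply K N L, val_map_lt, hWw]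
    exact hw
  have ht' : od (W.under (𝓞 N)) (tc P₀) = 1 := by
    rw [hWw]
    exact ht
  obtain ⟨T, hT⟩ := D.exists_T hi W (hloc W) hWϖ ht'
  obtain ⟨e, hed⟩ : ∃ e : ℤ, e = (W.asIdeal.ramificationIdx (𝓞 N) : ℤ) := ⟨_, rfl⟩
  rw [← hed] at he0 hT
  have hα0 : α ≠ 0 := by
    intro h0
    have h1 := hK.pow
    rw [h0, zero_pow hℓ.ne_zero] at h1
    have h2 : algebraMap N L (y : N) ≠ 0 := by
      rw [Ne, map_eq_zero]
      exact y.ne_zero
    exact h2 h1.symm
  have hbL : algebraMap N L b ≠ 0 := by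
    rw [Ne, map_eq_zero]
    exact hb0
  -- the decomposition field
  obtain ⟨N', _, _, _, _, _, _, _, _, hgal', hram, hdec⟩ := exists_dec (N := N) W
  have hunder : (W.under (𝓞 N')).under (𝓞 N) = w := by
    rw [← hWw]
    apply HeightOneSpectrum.ext
    simp only [HeightOneSpectrum.under_asIdeal]
    rw [Ideal.under_under]
  have hodN : ∀ z : N, od (W.under (𝓞 N')) (algebraMap N N' z) = od w z := by
    intro z
    rw [od_map, hram, hunder, Nat.cast_one, one_mul]
  have ha0 : (y : N) * b ^ ℓ - 1 ≠ 0 := by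
    intro h0
    rw [h0, map_zero] at hb
    exact WithZero.exp_ne_zero hb.symm
  have ha0' : algebraMap N N' ((y : N) * b ^ ℓ) - 1 ≠ 0 := by
    have h1 : algebraMap N N' ((y : N) * b ^ ℓ - 1) ≠ 0 := by
      rw [Ne, map_eq_zero]
      exact ha0
    rwa [map_sub, map_one] at h1
  have hoda : od w ((y : N) * b ^ ℓ - 1) = 1 := by
    rw [od, hb, WithZero.log_exp]
    norm_num
  have ha' : (W.under (𝓞 N')).valuation N' (algebraMap N N' ((y : N) * b ^ ℓ) - 1) =
      WithZero.exp (-1 : ℤ) := by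
    rw [val_eq _ ha0']
    have h1 := hodN ((y : N) * b ^ ℓ - 1)
    rw [map_sub, map_one, hoda] at h1
    rw [h1]
  have hl' : 2 ≤ od (W.under (𝓞 N')) (ℓ : N') := by
    have h1 := hodN (ℓ : N)
    rw [map_natCast] at h1
    rw [h1]
    exact hl2
  have hα' : (α * algebraMap N L b) ^ ℓ =
      algebraMap N' L (algebraMap N N' ((y : N) * b ^ ℓ)) := by
    rw [← IsScalarTower.algebraMap_apply N N' L, mul_pow, hK.pow, map_mul, map_pow]
  have hbfix : ∀ σ : Gal(L/N'), σ (algebraMap N L b) = algebraMap N L b := by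
    intro σ
    rw [IsScalarTower.algebraMap_apply N N' L, AlgEquiv.commutes]
  have hfix : ∀ σ : Gal(L/N'), σ (α * algebraMap N L b) = α * algebraMap N L b ↔ σ α = α := by
    intro σ
    rw [map_mul, hbfix]
    exact ⟨fun h => mul_right_cancel₀ hbL h, fun h => by rw [h]⟩
  -- some automorphism moves `α`
  have hτ : ∃ τ : Gal(L/N'), τ α ≠ α := by
    by_contra hcon
    push Not at hcon
    have hdec : DecidableEq N' := Classical.decEq _
    obtain ⟨z, hz⟩ := mem_of_fixed (F := N') (L := L) (z := α * algebraMap N L b)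
      (fun σ => (hfix σ).2 (hcon σ))
    have hz1 : z ^ ℓ = algebraMap N N' ((y : N) * b ^ ℓ) := by
      apply (algebraMap N' L).injective
      rw [map_pow, hz, hα']
    have hw' : (W.under (𝓞 N')).valuation N' (algebraMap K N' (ϖ : K)) < 1 := by
      rw [← val_map_lt, ← IsScalarTower.algebraMap_apply K N' L]
      exact hWϖ
    have h1 := pow_loc D.pd hw' (z := z) (by
      rw [hz1, ha', ← WithZero.exp_zero, WithZero.exp_lt_exp]
      norm_num)
    rw [hz1, ha', WithZero.exp_le_exp] at h1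
    norm_num at h1
  obtain ⟨τ, hτα⟩ := hτ
  obtain ⟨xτ, hxτ⟩ := D.exists_kap (toF F (toF N τ))
  have hact : τ α = ζ ^ (φ xτ).val * α := hK.act (toF N τ) xτ hxτ
  obtain ⟨m, hm⟩ : ∃ m : ℕ, m = (φ xτ).val := ⟨_, rfl⟩
  rw [← hm] at hact
  have hmℓ : ¬ ℓ ∣ m := by
    rintro ⟨j, hj⟩
    apply hτα
    rw [hact, hj, pow_mul, D.zeta.pow_eq_one, one_pow, one_mul]
  have hodζ : od w (ζ' ^ m - 1) = (ℓ : ℤ) + 1 := by
    have h1 := one_sub_zeta hℓ hζ' hl hmℓ
    rw [← h1]
    unfold od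
    rw [Valuation.map_sub_swap]
  have hζm : ζ' ^ m - 1 ≠ 0 := by
    intro h0
    rw [h0] at hodζ
    have h1 : od w (0 : N) = 0 := by
      unfold od
      rw [map_zero, WithZero.log_zero, neg_zero]
    rw [h1] at hodζ
    omega
  have hξ0 : ζ ^ m - 1 ≠ 0 := by
    have h1 : algebraMap N L (ζ' ^ m - 1) ≠ 0 := by
      rw [Ne, map_eq_zero]
      exact hζm
    rwa [map_sub, map_pow, map_one, hζζ] at h1
  have hodξ : od W (ζ ^ m - 1) = e * ((ℓ : ℤ) + 1) := by
    have h1 := od_map W (ζ' ^ m - 1)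
    rw [map_sub, map_pow, map_one, hζζ, hWw, hodζ, ← hed] at h1
    exact h1
  have hfinN : Module.Finite N L := Module.Finite.of_restrictScalars_finite ℚ N L
  have hcard : Nat.card {σ : Gal(L/N') // σ α = α} ≤ ℓ := by
    refine le_trans ?_ (D.card_stab hi hq hφ hK)
    refine Nat.card_le_card_of_injective
      (fun σ : {σ : Gal(L/N') // σ α = α} => (⟨toF N σ.1, σ.2⟩ : {σ : Gal(L/N) // σ α = α})) ?_
    rintro ⟨σ, hσ⟩ ⟨σ', hσ'⟩ h1
    apply Subtype.ext
    refine AlgEquiv.ext fun z => ?_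
    have h2 : toF N σ = toF N σ' := congrArg Subtype.val h1
    exact congrArg (fun g : Gal(L/N) => g z) h2
  refine lhd_end (N := N') hℓ W (ζ := ζ) he0 hα' ha' hl' hfix (T := T) ?_ ?_ hcard hτα (m := m) ?_
    D.zeta.pow_eq_one hξ0 hodξ
  · intro σ
    exact (hT (toF N σ) (hdec σ)).1.le
  · intro σ hσ
    obtain ⟨x, hx⟩ := D.exists_kap (toF F (toF N σ))
    refine (hT (toF N σ) (hdec σ)).2 x hx ?_
    intro hdvd
    apply hσ
    have h2 : σ α = ζ ^ (φ x).val * α := hK.act (toF N σ) x hx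
    rw [h2, hK.ker x (by rw [hi]; exact hdvd), ZMod.val_zero, pow_zero, one_mul]
  · rw [map_mul, hbfix, hact, mul_assoc]

end

end Pool.Agent.Lib.MP_1a91b9_nuX.DH
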