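import Pool.Agent.Lib.MP_1a91b9_nuX.DH.Kum

/-!
# DH: a class which is an `ℓ`-th power gives a coboundary (adapted from DX/Triv)

Port of MP_1a91b9_nuT/DH/Triv.lean to the curves `y² = x³ + D`.
-/

set_option autoImplicit false

namespace Pool.Agent.Lib.MP_1a91b9_nuX.DH

variable [Pool.Agent.Lib.MP_1a91b9_nuT.CD]

open NumberField IsDedekindDomain WeierstrassCurve Pool.Agent.Lib.MP_1a91b9_nuT
open Pool.Agent.Lib.MP_1a91b9_nuX.DB Pool.Agent.Lib.MP_1a91b9_nuX.DX

universe u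

variable [HC]

section
variable {F N L : Type u} [Field F] [NumberField F] [Algebra K F] [Field N] [NumberField N]
  [Algebra K N] [Field L] [NumberField L] [Algebra K L] [Algebra F N] [Algebra F L] [Algebra N L]
  [IsScalarTower K F N] [IsScalarTower K F L] [IsScalarTower K N L] [IsScalarTower F N L]
  [IsGalois F N]

/-- restriction of powers -/
private theorem trb_rs_pow (g : Gal(L/F)) (n : ℕ) : rs N (g ^ n) = rs N g ^ n := by
  induction n with
  | zero =>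
    rw [pow_zero, pow_zero]
    apply AlgEquiv.ext
    intro x
    apply (algebraMap N L).injective
    rw [rs_apply]
    rfl
  | succ n ih => rw [pow_succ, rs_mul, ih, pow_succ]

/-- a power of exponent `q - 1` fixes the generator of the field -/
private theorem trb_fix [DecidableEq N] [DecidableEq L] {β : 𝓞 K} {ℓ q : ℕ} (hβ : PD β ℓ q) {R : Pt N}
    (hF : Full F β R) (g : Gal(L/F)) :
    ga (g ^ (q - 1)) (up L R) = up L R := by
  have h1 : Nat.card Gal(N/F) = q - 1 := by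
    rw [IsGalois.card_aut_eq_finrank, ← Full.card hβ hF, Nat.add_sub_cancel]
  have h2 : rs N g ^ (q - 1) = 1 := by
    rw [← h1]
    exact pow_card_eq_one'
  rw [ga_up, trb_rs_pow, h2, ga_one]

end

section
variable {F N N₂ L : Type u} [Field F] [NumberField F] [Algebra K F] [Field N] [NumberField N]
  [Algebra K N] [Field N₂] [NumberField N₂] [Algebra K N₂] [Field L] [NumberField L] [Algebra K L]
  [Algebra F N] [Algebra F N₂] [Algebra F L] [Algebra N L] [Algebra N₂ L]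
  [IsScalarTower K F N] [IsScalarTower K F N₂] [IsScalarTower K F L] [IsScalarTower K N L]
  [IsScalarTower K N₂ L] [IsScalarTower F N L] [IsScalarTower F N₂ L]
  [DecidableEq F] [DecidableEq N] [DecidableEq N₂] [DecidableEq L]
  [IsGalois F N] [IsGalois F N₂] [IsGalois F L]
  {ϖ : 𝓞 K} {ℓ q : ℕ} {P₀ : Pt N} {P₂ : Pt N₂} {ζ : L} {κ : Gal(L/F) → Pt L}
  (D : TC ϖ ℓ q P₀ P₂ ζ κ)
include D

theorem TC.kap_zero {φ : 𝓞 K →+ ZMod ℓ} (hφ : φ ≠ 0) {y : Nˣ} {α : L}
    (hK : KC F ϖ ℓ P₀ P₂ ζ κ φ y α) (hy : ∃ z : Nˣ, y = z ^ ℓ) (g : Gal(L/F))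
    (h0 : ga g (up L P₀) = up L P₀) (h2 : ga g (up L P₂) = up L P₂) : κ g = 0 := by
  classical
  have hl := D.pd.hl
  haveI : NeZero ℓ := ⟨hl.ne_zero⟩
  have hα0 : α ≠ 0 := by
    intro h
    have h1 := hK.pow
    rw [h, zero_pow hl.ne_zero] at h1
    exact y.ne_zero ((map_eq_zero _).1 h1.symm)
  -- the root is a root of unity times an element of `N`
  obtain ⟨z, hz⟩ := hy
  have hαz : ∃ i : ℕ, α = ζ ^ i * algebraMap N L (z : N) := by
    have hz0 : algebraMap N L (z : N) ≠ 0 := by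
      intro h
      exact z.ne_zero ((map_eq_zero _).1 h)
    have h1 : (α / algebraMap N L (z : N)) ^ ℓ = 1 := by
      rw [div_pow, hK.pow, hz, Units.val_pow_eq_pow_val, map_pow]
      exact div_self (pow_ne_zero _ hz0)
    obtain ⟨i, -, hi⟩ := D.zeta.eq_pow_of_pow_eq_one h1
    exact ⟨i, by rw [hi, div_mul_cancel₀ _ hz0]⟩
  -- elements fixing the two points have classes killed by `φ`
  have key : ∀ (g : Gal(L/F)) (x : 𝓞 K), ga g (up L P₀) = up L P₀ → ga g (up L P₂) = up L P₂ →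
      κ g = sm L x (up L P₂) → φ x = 0 := by
    intro g x h0 h2 hx
    have hζ := D.chi_fix g h0 h2
    obtain ⟨σ, rfl⟩ := exists_of_rs_one g (D.rs_one g h0)
    obtain ⟨i, hi⟩ := hαz
    have hfix : σ α = α := by
      rw [toF_apply] at hζ
      rw [hi, map_mul, map_pow, hζ, σ.commutes]
    have h3 := hK.act σ x hx
    rw [hfix] at h3
    have h4 : ζ ^ (φ x).val = 1 := by
      have h5 : ζ ^ (φ x).val * α = 1 * α := by rw [one_mul, ← h3]
      exact mul_right_cancel₀ hα0 h5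
    rw [D.zeta.pow_eq_one_iff_dvd] at h4
    have h5 : (φ x).val = 0 := Nat.eq_zero_of_dvd_of_lt h4 (ZMod.val_lt _)
    exact (ZMod.val_eq_zero _).1 h5
  obtain ⟨x, hx⟩ := D.exists_kap g
  have hall : ∀ c : 𝓞 K, φ (x * c) = 0 := by
    intro c
    by_cases hc : cj ϖ ∣ c
    · exact hK.ker _ (Dvd.dvd.mul_left hc _)
    · obtain ⟨σ2, hσ2⟩ := D.full₂.all c hc
      obtain ⟨h, hh⟩ := exists_lift (L := L) σ2
      have hR : ga h (up L P₂) = sm L c (up L P₂) := by
        rw [ga_up, hh, hσ2, up_sm]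
      have hinv : ∀ T : Pt L, ga h (ga h⁻¹ T) = T := by
        intro T
        rw [← ga_mul, mul_inv_cancel, ga_one]
      obtain ⟨d', -, hd'⟩ := D.exists_d h⁻¹
      obtain ⟨c', -, hc'⟩ := D.exists_c h⁻¹
      obtain ⟨k, hk⟩ := D.exists_kap h⁻¹
      refine key (h * g * h⁻¹) (x * c) ?_ ?_ ?_
      · rw [ga_mul, ga_mul, hd', ga_sm, h0, ← hd', hinv]
      · rw [ga_mul, ga_mul, hc', ga_sm, h2, ← hc', hinv]
      · have e0 : κ h + ga h (κ h⁻¹) = 0 := by
          rw [← D.coc, mul_inv_cancel, D.kap_one]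
        have e1 : ga g (κ h⁻¹) = κ h⁻¹ := by
          rw [hk, ga_sm, h2]
        rw [mul_assoc, D.coc, D.coc, e1, map_add, hx, ga_sm, hR, add_left_comm, e0, add_zero,
          map_mul]
        rfl
  by_cases hxd : cj ϖ ∣ x
  · have h1 : sm L x (up L P₂) = sm L 0 (up L P₂) := D.kap_unique.2 (by rwa [sub_zero])
    rw [map_zero, AddMonoid.End.zero_apply] at h1
    rw [hx, h1]
  · exfalso
    obtain ⟨d, hd⟩ := (pd_cj D.pd).inv hxd
    apply hφ
    ext e
    have h1 : e = x * (d * e) - (x * d - 1) * e := by ring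
    rw [h1, map_sub, hall, hK.ker _ (Dvd.dvd.mul_right hd _), sub_zero, AddMonoidHom.zero_apply]

theorem TC.card_coprime (h : ∀ g : Gal(L/F), ga g (up L P₀) = up L P₀ →
    ga g (up L P₂) = up L P₂ → κ g = 0) : (Fintype.card Gal(L/F)).Coprime ℓ := by
  have hl := D.pd.hl
  haveI := Fact.mk hl
  rw [Nat.coprime_comm, hl.coprime_iff_not_dvd]
  intro hdvd
  obtain ⟨g, hg⟩ := exists_prime_orderOf_dvd_card ℓ hdvd
  have h0 : ga (g ^ (q - 1)) (up L P₀) = up L P₀ := trb_fix D.pd D.full g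
  have h2 : ga (g ^ (q - 1)) (up L P₂) = up L P₂ := trb_fix (pd_cj D.pd) D.full₂ g
  have h1 : g ^ (q - 1) = 1 := D.gen _ h0 h2 (h _ h0 h2) (D.chi_fix _ h0 h2)
  have h3 : ℓ ∣ q - 1 := by
    rw [← hg]
    exact orderOf_dvd_of_pow_eq_one h1
  exact hl.one_lt.ne' (Nat.eq_one_of_dvd_coprimes D.pd.coprime_q h3 dvd_rfl)

/-- if the order of the group is prime to `ℓ` the cocycle is a coboundary -/
theorem TC.cob_of_coprime (h : (Fintype.card Gal(L/F)).Coprime ℓ) :
    ∃ S : Pt L, ∀ g : Gal(L/F), κ g = ga g S - S := by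
  obtain ⟨e, he⟩ := (pd_cj D.pd).dvd
  have hb : (Fintype.card Gal(L/F) : ℤ) * Nat.gcdA (Fintype.card Gal(L/F)) ℓ +
      (ℓ : ℤ) * Nat.gcdB (Fintype.card Gal(L/F)) ℓ = 1 := by
    rw [← Nat.gcd_eq_gcd_ab, h, Nat.cast_one]
  have hl : ∀ g : Gal(L/F), (ℓ : ℤ) • κ g = 0 := by
    intro g
    rw [← sm_int, Int.cast_natCast, he, mul_comm, map_mul]
    show sm L e (sm L (cj ϖ) (κ g)) = 0
    rw [D.tor g, map_zero]
  have hs : ∀ g : Gal(L/F), (Fintype.card Gal(L/F) : ℤ) • κ g =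
      (∑ h : Gal(L/F), κ h) - ga g (∑ h : Gal(L/F), κ h) := by
    intro g
    have h1 : ∑ h : Gal(L/F), κ (g * h) = ∑ h : Gal(L/F), κ h :=
      Fintype.sum_equiv (Equiv.mulLeft g) _ _ (fun h => rfl)
    have h2 : ∑ h : Gal(L/F), κ (g * h) =
        (Fintype.card Gal(L/F) : ℤ) • κ g + ga g (∑ h : Gal(L/F), κ h) := by
      rw [Finset.sum_congr rfl (fun h _ => D.coc g h), Finset.sum_add_distrib,
        Finset.sum_const, Finset.card_univ, natCast_zsmul, map_sum]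
    rw [eq_sub_iff_add_eq, ← h2, h1]
  refine ⟨-(Nat.gcdA (Fintype.card Gal(L/F)) ℓ • ∑ h : Gal(L/F), κ h), fun g => ?_⟩
  have h2 : κ g = Nat.gcdA (Fintype.card Gal(L/F)) ℓ • ((Fintype.card Gal(L/F) : ℤ) • κ g) +
      Nat.gcdB (Fintype.card Gal(L/F)) ℓ • ((ℓ : ℤ) • κ g) := by
    rw [smul_smul, smul_smul, ← add_smul, mul_comm _ (Fintype.card Gal(L/F) : ℤ),
      mul_comm _ (ℓ : ℤ), hb, one_smul]
  rw [hl, smul_zero, add_zero, hs] at h2
  rw [map_neg, map_zsmul, h2, smul_sub]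
  abel

end

end Pool.Agent.Lib.MP_1a91b9_nuX.DH
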